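import Pool.Agent.Lib.P9aeaaa.Turb

/-!
# Generic ergodicity: the back-and-forth construction
-/

set_option linter.unusedSectionVars false

namespace Pool.Agent.Lib.P9aeaaa

open Set Filter Topology TopologicalSpace

theorem exists_chain {α : Type*} {P : α → Prop} {r : ℕ → α → α → Prop} {a : α} (ha : P a)
    (h : ∀ n x, P x → ∃ y, P y ∧ r n x y) :
    ∃ f : ℕ → α, f 0 = a ∧ ∀ n, P (f n) ∧ r n (f n) (f (n + 1)) := by
  choose! F hF using h
  let f : ℕ → α := fun n => Nat.rec a (fun n x => F n x) n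
  have hP : ∀ n, P (f n) := by
    intro n
    induction n with
    | zero => exact ha
    | succ n ih => exact (hF n (f n) ih).1
  exact ⟨f, rfl, fun n => ⟨hP n, (hF n (f n) (hP n)).2⟩⟩

theorem exists_perm_limit (g : ℕ → Equiv.Perm ℕ)
    (h : ∀ k, ∀ i < k, g (k + 1) i = g k i ∧ (g (k + 1))⁻¹ i = (g k)⁻¹ i) :
    ∃ G : Equiv.Perm ℕ, ∀ i, ∀ᶠ k in atTop, (g k)⁻¹ i = G⁻¹ i := by
  have h1 : ∀ i k, i + 1 ≤ k → g k i = g (i + 1) i ∧ (g k)⁻¹ i = (g (i + 1))⁻¹ i := by
    intro i k hk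
    induction k, hk using Nat.le_induction with
    | base => exact ⟨rfl, rfl⟩
    | succ k hk ih =>
      have := h k i (by omega)
      exact ⟨this.1.trans ih.1, this.2.trans ih.2⟩
  let G : Equiv.Perm ℕ :=
    { toFun := fun i => g (i + 1) i
      invFun := fun i => (g (i + 1))⁻¹ i
      left_inv := by
        intro i
        let k := max (i + 1) (g (i + 1) i + 1)
        have e1 := (h1 i k (le_max_left _ _)).1
        have e2 := (h1 (g (i + 1) i) k (le_max_right _ _)).2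
        show (g (g (i + 1) i + 1))⁻¹ (g (i + 1) i) = i
        rw [← e2, ← e1]
        simp
      right_inv := by
        intro i
        let k := max (i + 1) ((g (i + 1))⁻¹ i + 1)
        have e1 := (h1 i k (le_max_left _ _)).2
        have e2 := (h1 ((g (i + 1))⁻¹ i) k (le_max_right _ _)).1
        show (g ((g (i + 1))⁻¹ i + 1)) ((g (i + 1))⁻¹ i) = i
        rw [← e2, ← e1]
        simp }
  refine ⟨G, fun i => ?_⟩
  filter_upwards [eventually_ge_atTop (i + 1)] with k hk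
  exact (h1 i k hk).2

section Orbit

variable {X : Type*} [AddCommGroup X] [Module ℝ X] [TopologicalSpace X] [IsTopologicalAddGroup X]
  [ContinuousSMul ℝ X] [LocallyConvexSpace ℝ X] [PolishSpace X] [MeasurableSpace X] [BorelSpace X]
  {H : Type*} [NormedAddCommGroup H] [NormedSpace ℝ H] [CompleteSpace H]
  [SecondCountableTopology H] [MeasurableSpace H] [BorelSpace H]
  {Y : Type*} [MeasurableSpace Y] [StandardBorelSpace Y] [MulAction (Equiv.Perm ℕ) Y]

/-- One stage of the construction. -/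
structure Dat (X : Type*) where
  p : X
  g : Equiv.Perm ℕ
  O : Set X
  F : Finset ℕ
  n : ℕ

/-- Validity of one stage. -/
structure Valid (π : H →L[ℝ] X) (θ : X → Y) (C : Set X) (a : Dat X) : Prop where
  pC : a.p ∈ C
  pO : a.p ∈ a.O
  op : IsOpen a.O
  conv : Convex ℝ a.O
  core : a.O ⊆ core (GG π θ a.F a.n)

theorem core_empty (π : H →L[ℝ] X) {θ : X → Y}
    (hinv : ∀ x h, ∃ g : Equiv.Perm ℕ, θ (x + π h) = g • θ x) : core (GG π θ ∅ 0) = univ := by
  rw [eq_univ_iff_forall]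
  intro x
  refine subset_core isOpen_univ ?_ (mem_univ x)
  refine Eventually.of_forall fun y _ => ?_
  show ∀ᶠ k in residual H, k ∈ Metric.ball (0 : H) (1 / (((0 : ℕ) : ℝ) + 1)) → Rel θ ∅ y (y + π k)
  refine Eventually.of_forall fun k _ => ?_
  obtain ⟨g, hg⟩ := hinv y k
  exact ⟨g, fun i hi => absurd hi (Finset.notMem_empty i), hg⟩

theorem exists_valid {π : H →L[ℝ] X} {θ : X → Y} {C : Set X} (hC : Good π θ C) {p : X} (hp : p ∈ C)
    (g : Equiv.Perm ℕ) (F : Finset ℕ) {W : Set X} (hW : IsOpen W) (hpW : p ∈ W) :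
    ∃ a : Dat X, Valid π θ C a ∧ a.p = p ∧ a.g = g ∧ a.F = F ∧ closure a.O ⊆ W := by
  obtain ⟨n, hn⟩ := hC.ex p hp F
  have h1 : W ∩ Pool.Agent.Lib.P9aeaaa.core (GG π θ F n) ∈ 𝓝 p := (hW.inter (isOpen_core _)).mem_nhds ⟨hpW, hn⟩
  obtain ⟨K, hK, hKc, hKs⟩ := exists_mem_nhds_isClosed_subset h1
  obtain ⟨V, ⟨hV, hVc⟩, hVs⟩ := (LocallyConvexSpace.convex_basis (𝕜 := ℝ) p).mem_iff.1 hK
  refine ⟨⟨p, g, interior V, F, n⟩, ⟨hp, mem_interior_iff_mem_nhds.2 hV, isOpen_interior,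
    hVc.interior, ?_⟩, rfl, rfl, rfl, ?_⟩
  · exact (interior_subset.trans hVs).trans (hKs.trans inter_subset_right)
  · refine (closure_minimal (interior_subset.trans hVs) hKc).trans (hKs.trans inter_subset_left)

/-- Generic ergodicity: a comeager set is mapped into one orbit. -/
theorem exists_comeager_orbit (π : H →L[ℝ] X) (hπ : DenseRange π) {θ : X → Y} (hθ : Measurable θ)
    (hact : Measurable fun p : Equiv.Perm ℕ × Y => p.1 • p.2)
    (hinv : ∀ x h, ∃ g : Equiv.Perm ℕ, θ (x + π h) = g • θ x) :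
    ∃ C ∈ residual X, ∀ x ∈ C, ∀ y ∈ C, ∃ g : Equiv.Perm ℕ, θ y = g • θ x := by
  classical
  let _ := upgradeIsCompletelyMetrizable X
  obtain ⟨R, hR, hcont⟩ := exists_cont hact hθ
  obtain ⟨C, hCR, hC⟩ := exists_good π hθ hact hinv hR
  obtain ⟨S, hSo, hSd, hSc, hS⟩ := mem_residual_iff.1 hR
  obtain ⟨D, hDo, hDd, hDR⟩ : ∃ D : ℕ → Set X, (∀ j, IsOpen (D j)) ∧ (∀ j, D j ∈ residual X) ∧
      ⋂ j, D j ⊆ R := by
    rcases S.eq_empty_or_nonempty with rfl | hne
    · exact ⟨fun _ => univ, fun _ => isOpen_univ, fun _ => univ_mem, by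
        rw [sInter_empty] at hS
        exact (subset_univ _).trans hS⟩
    · obtain ⟨D, rfl⟩ := hSc.exists_eq_range hne
      refine ⟨D, fun j => hSo _ (mem_range_self j), fun j => residual_of_dense_open
        (hSo _ (mem_range_self j)) (hSd _ (mem_range_self j)), ?_⟩
      rw [← sInter_range]
      exact hS
  obtain ⟨C', hC'D, hC'⟩ := exists_good π hθ hact hinv (R := C ∩ ⋂ j, D j)
    (inter_mem hC.res (countable_iInter_mem.2 hDd))
  refine ⟨C', hC'.res, fun x hx y hy => ?_⟩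
  -- the construction
  let P : Dat X × Dat X → Prop := fun s => Valid π θ C' s.1 ∧ Valid π θ C' s.2 ∧ s.2.O ⊆ s.1.O
  let r : ℕ → Dat X × Dat X → Dat X × Dat X → Prop := fun j s t =>
    t.1 = s.2 ∧ closure t.2.O ⊆ s.2.O ∩ D j ∧ t.2.O ⊆ Metric.ball t.2.p ((1 / 2) ^ j) ∧
      (∃ w : Equiv.Perm ℕ, (∀ i ∈ s.1.F, w i = i) ∧ θ t.2.p = w • θ s.1.p ∧ t.2.g = w * s.1.g) ∧
      (∀ i < j + 2, i ∈ t.2.F ∧ t.2.g i ∈ t.2.F)
  have hstep : ∀ j s, P s → ∃ t, P t ∧ r j s t := by
    rintro j ⟨a, b⟩ ⟨ha, hb, hab⟩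
    obtain ⟨p, hpO, hpC, w, hwF, hw⟩ := exists_move hπ hC' ha.op ha.conv ha.core hb.op
      ⟨b.p, hb.pO⟩ hab ha.pC ha.pO
    have hpD : p ∈ D j := mem_iInter.1 (hC'D hpC).2 j
    let W : Set X := (b.O ∩ D j) ∩ Metric.ball p ((1 / 2) ^ j)
    have hW : IsOpen W := (hb.op.inter (hDo j)).inter Metric.isOpen_ball
    obtain ⟨c, hc, h1, h2, h3, h4⟩ := exists_valid hC' hpC (w * a.g)
      (Finset.range (j + 2) ∪ (Finset.range (j + 2)).image fun i => (w * a.g) i) hW
      ⟨⟨hpO, hpD⟩, Metric.mem_ball_self (by positivity)⟩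
    refine ⟨(b, c), ⟨hb, hc, ?_⟩, rfl, h4.trans inter_subset_left, ?_, ⟨w, hwF, ?_, h2⟩, ?_⟩
    · exact (subset_closure.trans h4).trans (inter_subset_left.trans inter_subset_left)
    · show c.O ⊆ Metric.ball c.p _
      rw [h1]
      exact (subset_closure.trans h4).trans inter_subset_right
    · show θ c.p = _
      rw [h1]
      exact hw
    · intro i hi
      show i ∈ c.F ∧ c.g i ∈ c.F
      rw [h3, h2]
      exact ⟨Finset.mem_union_left _ (Finset.mem_range.2 hi),
        Finset.mem_union_right _ (Finset.mem_image.2 ⟨i, Finset.mem_range.2 hi, rfl⟩)⟩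
  obtain ⟨n1, hn1⟩ := hC'.ex y hy ∅
  have hce := core_empty π hinv
  have hP0 : P (⟨x, 1, univ, ∅, 0⟩, ⟨y, 1, univ, ∅, 0⟩) := by
    refine ⟨⟨hx, mem_univ _, isOpen_univ, convex_univ, ?_⟩,
      ⟨hy, mem_univ _, isOpen_univ, convex_univ, ?_⟩, subset_rfl⟩
    · rw [hce]
    · rw [hce]
  obtain ⟨f, hf0, hf⟩ := exists_chain hP0 hstep
  let s : ℕ → Dat X := fun j => (f j).1
  have hs : ∀ j, (f j).2 = s (j + 1) := fun j => ((hf j).2.1).symm
  have hval : ∀ j, Valid π θ C' (s j) := fun j => (hf j).1.1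
  have hclos : ∀ j, closure (s (j + 2)).O ⊆ (s (j + 1)).O ∩ D j := by
    intro j
    have h := (hf j).2.2.1
    rw [hs, hs] at h
    exact h
  have hball : ∀ j, (s (j + 2)).O ⊆ Metric.ball (s (j + 2)).p ((1 / 2) ^ j) := by
    intro j
    have h := (hf j).2.2.2.1
    rw [hs] at h
    exact h
  have hw : ∀ j, ∃ w : Equiv.Perm ℕ, (∀ i ∈ (s j).F, w i = i) ∧ θ (s (j + 2)).p = w • θ (s j).p ∧
      (s (j + 2)).g = w * (s j).g := by
    intro j
    have h := (hf j).2.2.2.2.1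
    rw [hs] at h
    exact h
  have hF : ∀ j, ∀ i < j + 2, i ∈ (s (j + 2)).F ∧ (s (j + 2)).g i ∈ (s (j + 2)).F := by
    intro j
    have h := (hf j).2.2.2.2.2
    rw [hs] at h
    exact h
  have hmono1 : ∀ j, (s (j + 2)).O ⊆ (s (j + 1)).O := fun j =>
    (subset_closure.trans (hclos j)).trans inter_subset_left
  have hmono : ∀ i j, i ≤ j → (s (j + 1)).O ⊆ (s (i + 1)).O := by
    intro i j hij
    induction j, hij using Nat.le_induction with
    | base => exact subset_rfl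
    | succ j _ ih => exact (hmono1 j).trans ih
  have hcau : CauchySeq fun j => (s (j + 2)).p := by
    refine cauchySeq_of_le_tendsto_0 (fun N => 2 * (1 / 2 : ℝ) ^ N) ?_ ?_
    · intro n m N hn hm
      have h1 := hball N (hmono (N + 1) (n + 1) (by omega) (hval (n + 2)).pO)
      have h2 := hball N (hmono (N + 1) (m + 1) (by omega) (hval (m + 2)).pO)
      rw [Metric.mem_ball] at h1 h2
      calc dist (s (n + 2)).p (s (m + 2)).p ≤ dist (s (n + 2)).p (s (N + 2)).p +
            dist (s (m + 2)).p (s (N + 2)).p := dist_triangle_right _ _ _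
        _ ≤ 2 * (1 / 2 : ℝ) ^ N := by linarith
    · have := (tendsto_pow_atTop_nhds_zero_of_lt_one (r := (1 / 2 : ℝ)) (by norm_num)
        (by norm_num)).const_mul 2
      simpa using this
  obtain ⟨z, hz⟩ := cauchySeq_tendsto_of_complete hcau
  have hz' : Tendsto (fun j => (s j).p) atTop (𝓝 z) := (tendsto_add_atTop_iff_nat 2).1 hz
  have hzD : z ∈ ⋂ j, D j := by
    refine mem_iInter.2 fun j => ?_
    have h1 : z ∈ closure (s (j + 2)).O := by
      refine mem_closure_of_tendsto hz ?_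
      filter_upwards [eventually_ge_atTop j] with i hi
      exact hmono (j + 1) (i + 1) (by omega) (hval (i + 2)).pO
    exact (hclos j h1).2
  have hzR := hDR hzD
  have hpsi : ∀ κ b, ∀ᶠ j in atTop, (Psi (θ (s j).p) κ b ↔ Psi (θ z) κ b) := by
    intro κ b
    have h1 := hz'.eventually (hcont z hzR κ b)
    refine h1.mono fun j hj => hj ?_
    exact hCR (hC'D (hval j).pC).1
  -- even and odd parts
  have key : ∀ e, (e = 0 ∨ e = 1) → ∃ G : Equiv.Perm ℕ, θ z = G • θ (s e).p := by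
    intro e he
    have hge : (s e).g = 1 := by
      rcases he with rfl | rfl
      · show (f 0).1.g = 1
        rw [hf0]
      · rw [← hs 0, hf0]
    have hgk : ∀ k, θ (s (2 * k + e)).p = (s (2 * k + e)).g • θ (s e).p := by
      intro k
      induction k with
      | zero => simp [hge]
      | succ k ih =>
        obtain ⟨w, -, h1, h2⟩ := hw (2 * k + e)
        have h3 : 2 * (k + 1) + e = 2 * k + e + 2 := by ring
        rw [h3, h1, h2, ih, mul_smul]
    have hst : ∀ k, ∀ i < k, (s (2 * (k + 1) + e)).g i = (s (2 * k + e)).g i ∧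
        (s (2 * (k + 1) + e)).g⁻¹ i = (s (2 * k + e)).g⁻¹ i := by
      intro k i hi
      obtain ⟨w, hwF, h1, h2⟩ := hw (2 * k + e)
      have h3 : 2 * (k + 1) + e = 2 * k + e + 2 := by ring
      obtain ⟨j, hj⟩ : ∃ j, 2 * k + e = j + 2 := ⟨2 * k + e - 2, by omega⟩
      have h4 := hF j i (by omega)
      rw [← hj] at h4
      rw [h3, h2]
      refine ⟨?_, ?_⟩
      · rw [Equiv.Perm.mul_apply, hwF _ h4.2]
      · rw [mul_inv_rev, Equiv.Perm.mul_apply]
        congr 1
        have h5 := hwF _ h4.1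
        conv_lhs => rw [← h5]
        simp
    obtain ⟨G, hG⟩ := exists_perm_limit (fun k => (s (2 * k + e)).g) hst
    refine ⟨G, orbit_limit hact hG fun κ b => ?_⟩
    have hten : Tendsto (fun k : ℕ => 2 * k + e) atTop atTop :=
      tendsto_atTop_mono (fun k => by show k ≤ 2 * k + e; omega) tendsto_id
    have h5 := hten.eventually (hpsi κ b)
    refine h5.mono fun k hk => ?_
    rw [← hgk k]
    exact hk
  obtain ⟨G0, hG0⟩ := key 0 (Or.inl rfl)
  obtain ⟨G1, hG1⟩ := key 1 (Or.inr rfl)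
  have hs0 : (s 0).p = x := by
    show (f 0).1.p = x
    rw [hf0]
  have hs1 : (s 1).p = y := by
    rw [← hs 0, hf0]
  rw [hs0] at hG0
  rw [hs1] at hG1
  refine ⟨G1⁻¹ * G0, ?_⟩
  rw [mul_smul, ← hG0, hG1, inv_smul_smul]

end Orbit

end Pool.Agent.Lib.P9aeaaa
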