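import Pool.Agent.Lib.P9aeaaa.Family
import Pool.Agent.Lib.P9aeaaa.Orbit

/-!
# Topological conjugacy of diffeomorphisms is not classifiable by countable structures
-/

set_option linter.unusedSectionVars false

namespace Pool.Agent.Lib.P9aeaaa

open Set Filter Topology Metric
open scoped RealInnerProductSpace ContDiff NNReal Manifold

section Banach

/-- The Cantor space. -/
abbrev Can : Type := ℕ → Bool

/-- Disjoint clopen sets. -/
def clo (n : ℕ) : Set Can := {x | x n = true ∧ ∀ k < n, x k = false}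

/-- Points in these sets. -/
def pt (n : ℕ) : Can := fun k => decide (k = n)

theorem pt_mem (n m : ℕ) : pt m ∈ clo n ↔ n = m := by
  constructor
  · rintro ⟨h, -⟩
    simpa [pt] using h
  · rintro rfl
    refine ⟨by simp [pt], fun k hk => ?_⟩
    simp [pt, hk.ne]

theorem isClopen_clo (n : ℕ) : IsClopen (clo n) := by
  have h : clo n = (fun x : Can => x n) ⁻¹' {true} ∩
      ⋂ k ∈ Finset.range n, (fun x : Can => x k) ⁻¹' {false} := by
    ext x
    simp [clo]
  rw [h]
  refine IsClopen.inter ((isClopen_discrete _).preimage (continuous_apply n)) ?_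
  exact isClopen_biInter_finset fun k _ => (isClopen_discrete _).preimage (continuous_apply k)

/-- Indicator functions. -/
noncomputable def ind (n : ℕ) : C(Can, ℝ) where
  toFun := (clo n).indicator fun _ => 1
  continuous_toFun := (isClopen_clo n).continuous_indicator continuous_const

theorem ind_pt (n m : ℕ) : ind n (pt m) = if n = m then 1 else 0 := by
  show (clo n).indicator (fun _ => (1 : ℝ)) (pt m) = _
  by_cases h : n = m
  · rw [if_pos h, indicator_of_mem ((pt_mem n m).2 h)]
  · rw [if_neg h, indicator_of_notMem (fun h' => h ((pt_mem n m).1 h'))]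

/-- The map to sequences. -/
noncomputable def piH : C(Can, ℝ) →L[ℝ] (ℕ → ℝ) :=
  ContinuousLinearMap.pi fun n => (1 / 2 : ℝ) ^ n • ContinuousMap.evalCLM ℝ (pt n)

theorem piH_apply (h : C(Can, ℝ)) (n : ℕ) : piH h n = (1 / 2 : ℝ) ^ n * h (pt n) := rfl

theorem summable_piH (h : C(Can, ℝ)) : Summable fun n => |piH h n| := by
  refine Summable.of_nonneg_of_le (fun n => abs_nonneg _) (fun n => ?_)
    ((summable_half 0).mul_right ‖h‖)
  rw [piH_apply, abs_mul, abs_of_nonneg (by positivity)]
  simp only [add_zero]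
  gcongr
  exact h.norm_coe_le_norm (pt n)

theorem denseRange_piH : DenseRange piH := by
  intro t
  let u : ℕ → C(Can, ℝ) := fun N => ∑ n ∈ Finset.range N, (t n * 2 ^ n) • ind n
  have hu : ∀ N m, m < N → piH (u N) m = t m := by
    intro N m hm
    rw [piH_apply]
    have h1 : u N (pt m) = ∑ n ∈ Finset.range N, (t n * 2 ^ n) * ind n (pt m) := by
      show (∑ n ∈ Finset.range N, (t n * 2 ^ n) • ind n) (pt m) = _
      rw [ContinuousMap.sum_apply]
      rfl
    rw [h1, Finset.sum_eq_single m]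
    · rw [ind_pt, if_pos rfl, mul_one]
      rw [mul_comm (t m), ← mul_assoc, ← mul_pow]
      norm_num
    · intro n _ hn
      rw [ind_pt, if_neg hn, mul_zero]
    · intro h
      exact absurd (Finset.mem_range.2 hm) h
  refine mem_closure_of_tendsto (f := fun N => piH (u N)) (b := atTop) ?_
    (Eventually.of_forall fun N => mem_range_self _)
  rw [tendsto_pi_nhds]
  intro m
  refine tendsto_const_nhds.congr' ?_
  filter_upwards [eventually_gt_atTop m] with N hN
  exact (hu N m hN).symm

end Banach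

/-- Parameters to positions. -/
noncomputable def pos (t : ℕ → ℝ) (i : ℕ) : ℝ := Real.sin (t i) / 8

theorem small_pos (t : ℕ → ℝ) : Small (pos t) := by
  intro i
  unfold pos
  rw [abs_div]
  have := Real.abs_sin_le_one (t i)
  norm_num
  linarith

theorem continuous_pos : Continuous pos := by
  refine continuous_pi fun i => ?_
  unfold pos
  exact (Real.continuous_sin.comp (continuous_apply i)).div_const 8

theorem summable_pos (t : ℕ → ℝ) (h : C(Can, ℝ)) :
    Summable fun i => |pos (t + piH h) i - pos t i| := by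
  refine Summable.of_nonneg_of_le (fun n => abs_nonneg _) (fun n => ?_) (summable_piH h)
  unfold pos
  have h1 : Real.sin ((t + piH h) n) / 8 - Real.sin (t n) / 8 =
      (Real.sin ((t + piH h) n) - Real.sin (t n)) / 8 := by ring
  rw [h1, abs_div]
  have h2 : |Real.sin ((t + piH h) n) - Real.sin (t n)| ≤ |piH h n| := by
    have := Real.abs_sin_sub_sin_le ((t + piH h) n) (t n)
    rw [Pi.add_apply, add_sub_cancel_left] at this
    exact this
  have h3 : |(8 : ℝ)| = 8 := by norm_num
  rw [h3]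
  have := abs_nonneg (piH h n)
  linarith

/-- Generic parameters oscillate along a given subsequence. -/
theorem residual_osc (φ : ℕ → ℕ) (hφ : StrictMono φ) {U : Set ℝ} (hU : IsOpen U)
    (hUn : U.Nonempty) : ∀ᶠ t in residual (ℕ → ℝ), ∃ᶠ l in atTop, t (φ l) ∈ U := by
  obtain ⟨u, hu⟩ := hUn
  have h1 : ∀ᶠ t in residual (ℕ → ℝ), ∀ N : ℕ, ∃ l ≥ N, t (φ l) ∈ U := by
    rw [eventually_countable_forall]
    intro N
    refine residual_of_dense_open ?_ ?_
    · have : {t : ℕ → ℝ | ∃ l ≥ N, t (φ l) ∈ U} = ⋃ (l : ℕ) (_ : l ≥ N), {t | t (φ l) ∈ U} := by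
        ext t
        simp
      show IsOpen {t : ℕ → ℝ | ∃ l ≥ N, t (φ l) ∈ U}
      rw [this]
      exact isOpen_iUnion fun l => isOpen_iUnion fun _ => hU.preimage (continuous_apply _)
    · rw [dense_iff_inter_open]
      rintro W hW ⟨t, ht⟩
      obtain ⟨I, v, hv, hsub⟩ := isOpen_pi_iff.1 hW t ht
      let l := max N (I.sup id + 1)
      have hl : φ l ∉ I := by
        intro hmem
        have h2 : φ l ≤ I.sup id := Finset.le_sup (f := id) hmem
        have h3 : l ≤ φ l := hφ.id_le l
        have h4 : I.sup id + 1 ≤ l := le_max_right _ _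
        omega
      refine ⟨Function.update t (φ l) u, hsub ?_, l, le_max_left _ _, ?_⟩
      · intro i hi
        have hne : i ≠ φ l := fun h => hl (h ▸ hi)
        rw [Function.update_of_ne hne]
        exact (hv i hi).2
      · rw [Function.update_self]
        exact hu
  refine h1.mono fun t ht => ?_
  rw [frequently_atTop]
  exact ht

section Main

variable {E : Type*} [NormedAddCommGroup E] [InnerProductSpace ℝ E] [FiniteDimensional ℝ E]
  {M : Type*} [TopologicalSpace M] [ChartedSpace E M] [IsManifold 𝓘(ℝ, E) ∞ M] [CompactSpace M]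
  [T2Space M]

variable (fr : Frame E) (P : Prof E) (c : UC E M)

/-- No comeager set of parameters gives pairwise conjugate maps. -/
theorem no_comeager {C : Set (ℕ → ℝ)} (hC : C ∈ residual (ℕ → ℝ))
    (hconj : ∀ t ∈ C, ∀ t' ∈ C, ∃ h : M ≃ₜ M, ∀ m, h (fM fr P c (pos t) m) =
      fM fr P c (pos t') (h m)) : False := by
  obtain ⟨t, -, ht⟩ := exists_of_residual (X := ℕ → ℝ) isOpen_univ ⟨0, mem_univ _⟩ hC
  obtain ⟨a, -, φ, hφ, ha⟩ := (isCompact_Icc (a := -(1 / 8 : ℝ)) (b := 1 / 8)).tendsto_subseq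
    (x := pos t) (fun i => abs_le.1 (small_pos t i))
  have h1 : ∀ᶠ t' in residual (ℕ → ℝ), ∃ᶠ l in atTop, t' (φ l) ∈ {x : ℝ | 1 / 2 < Real.sin x} := by
    refine residual_osc φ hφ (isOpen_lt continuous_const Real.continuous_sin) ⟨Real.pi / 2, ?_⟩
    show 1 / 2 < Real.sin (Real.pi / 2)
    rw [Real.sin_pi_div_two]
    norm_num
  have h2 : ∀ᶠ t' in residual (ℕ → ℝ), ∃ᶠ l in atTop,
      t' (φ l) ∈ {x : ℝ | Real.sin x < -(1 / 2)} := by
    refine residual_osc φ hφ (isOpen_lt Real.continuous_sin continuous_const) ⟨-(Real.pi / 2), ?_⟩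
    show Real.sin (-(Real.pi / 2)) < -(1 / 2)
    rw [Real.sin_neg, Real.sin_pi_div_two]
    norm_num
  obtain ⟨t', -, ht', h3, h4⟩ := exists_of_residual (X := ℕ → ℝ) isOpen_univ ⟨0, mem_univ _⟩
    (Eventually.and hC (h1.and h2))
  obtain ⟨h, hh⟩ := hconj t ht t' ht'
  obtain ⟨b, hb⟩ := conj_tendsto fr P c (small_pos t) (small_pos t') hh hφ.tendsto_atTop ha
  have h5 : 1 / 16 ≤ b := by
    by_contra hcon
    push Not at hcon
    have h6 := hb.eventually (eventually_lt_nhds hcon)
    obtain ⟨l, h7, h8⟩ := (h3.and_eventually h6).exists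
    have h9 : 1 / 2 < Real.sin (t' (φ l)) := h7
    have h10 : Real.sin (t' (φ l)) / 8 < 1 / 16 := h8
    linarith
  have h6 : b ≤ -(1 / 16) := by
    by_contra hcon
    push Not at hcon
    have h6 := hb.eventually (eventually_gt_nhds hcon)
    obtain ⟨l, h7, h8⟩ := (h4.and_eventually h6).exists
    have h9 : Real.sin (t' (φ l)) < -(1 / 2) := h7
    have h10 : -(1 / 16) < Real.sin (t' (φ l)) / 8 := h8
    linarith
  linarith

/-- The σ-algebra generated by the evaluations. -/
@[instance_reducible]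
noncomputable def evalSigma (E M : Type*) [NormedAddCommGroup E] [InnerProductSpace ℝ E]
    [TopologicalSpace M] [ChartedSpace E M] : MeasurableSpace (M ≃ₘ⟮𝓘(ℝ, E), 𝓘(ℝ, E)⟯ M) :=
  ⨆ m : M, MeasurableSpace.comap (fun f => f m) (borel M)

theorem main [Nonempty M] (fr : Frame E) {Y : Type*} [MeasurableSpace Y] [StandardBorelSpace Y]
    [MulAction (Equiv.Perm ℕ) Y] (hact : Measurable fun p : Equiv.Perm ℕ × Y => p.1 • p.2)
    (θ : (M ≃ₘ⟮𝓘(ℝ, E), 𝓘(ℝ, E)⟯ M) → Y) (hθ : @Measurable _ _ (evalSigma E M) _ θ) :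
    ¬ ∀ f g : M ≃ₘ⟮𝓘(ℝ, E), 𝓘(ℝ, E)⟯ M, (∃ h : M ≃ₜ M, ∀ m, h (f m) = g (h m)) ↔
      ∃ σ : Equiv.Perm ℕ, σ • θ f = θ g := by
  intro hred
  obtain ⟨c⟩ := exists_uc (E := E) (M := M)
  have := nontrivial_E fr
  obtain ⟨P⟩ := exists_prof (E := E)
  choose D hD using fun t : ℕ → ℝ => exists_diffeo_fM fr P c (small_pos t)
  let θ' : (ℕ → ℝ) → Y := fun t => θ (D t)
  have hDm : @Measurable _ _ _ (evalSigma E M) D := by
    rw [measurable_iff_comap_le, evalSigma, MeasurableSpace.comap_iSup]
    refine iSup_le fun m => ?_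
    rw [MeasurableSpace.comap_comp, ← measurable_iff_comap_le]
    have hc : Continuous fun t : ℕ → ℝ => D t m := by
      have := continuous_fM_param fr P c (fun t => small_pos t) continuous_pos m
      refine this.congr fun t => ?_
      rw [hD]
    let _ : MeasurableSpace M := borel M
    have _ : BorelSpace M := ⟨rfl⟩
    exact hc.measurable
  have hθ' : Measurable θ' := hθ.comp hDm
  let : MeasurableSpace C(Can, ℝ) := borel _
  have : BorelSpace C(Can, ℝ) := ⟨rfl⟩
  obtain ⟨C, hC, hCC⟩ := exists_comeager_orbit piH denseRange_piH hθ' hact (by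
    intro t h
    obtain ⟨k, hk⟩ := exists_conj fr P c (small_pos t) (small_pos (t + piH h)) (summable_pos t h)
    obtain ⟨σ, hσ⟩ := (hred (D t) (D (t + piH h))).1 ⟨k, fun m => by rw [hD, hD]; exact hk m⟩
    exact ⟨σ, hσ.symm⟩)
  refine no_comeager fr P c hC fun t ht t' ht' => ?_
  obtain ⟨σ, hσ⟩ := hCC t ht t' ht'
  obtain ⟨k, hk⟩ := (hred (D t) (D t')).2 ⟨σ, hσ.symm⟩
  refine ⟨k, fun m => ?_⟩
  have := hk m
  rw [hD, hD] at this
  exact this

/-- The Borel σ-algebra of every Polish topology for which the evaluations are continuous is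
generated by the evaluations. -/
theorem borel_eq_evalSigma (τ : TopologicalSpace (M ≃ₘ⟮𝓘(ℝ, E), 𝓘(ℝ, E)⟯ M))
    (hτ : @PolishSpace _ τ)
    (hev : ∀ m : M, @Continuous _ _ τ _ fun f : M ≃ₘ⟮𝓘(ℝ, E), 𝓘(ℝ, E)⟯ M => f m) :
    @borel _ τ = evalSigma E M := by
  have : SecondCountableTopology M := ChartedSpace.secondCountable_of_sigmaCompact E M
  rcases isEmpty_or_nonempty M with hM | hM
  · have : Subsingleton (M ≃ₘ⟮𝓘(ℝ, E), 𝓘(ℝ, E)⟯ M) :=
      ⟨fun f g => by ext m; exact (hM.false m).elim⟩
    apply le_antisymm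
    · intro s _
      exact @Set.Subsingleton.measurableSet _ (evalSigma E M) _ s (subsingleton_of_subsingleton)
    · intro s _
      exact @Set.Subsingleton.measurableSet _ (@borel _ τ) _ s (subsingleton_of_subsingleton)
  let : MeasurableSpace M := borel M
  have : BorelSpace M := ⟨rfl⟩
  let := τ
  let : MeasurableSpace (M ≃ₘ⟮𝓘(ℝ, E), 𝓘(ℝ, E)⟯ M) := borel _
  have : BorelSpace (M ≃ₘ⟮𝓘(ℝ, E), 𝓘(ℝ, E)⟯ M) := ⟨rfl⟩
  apply le_antisymm
  · let d : ℕ → M := TopologicalSpace.denseSeq M
    let ev : (M ≃ₘ⟮𝓘(ℝ, E), 𝓘(ℝ, E)⟯ M) → ℕ → M := fun f n => f (d n)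
    have hc : Continuous ev := continuous_pi fun n => hev (d n)
    have hinj : Function.Injective ev := by
      intro f g h
      have h1 : (f : M → M) = g := by
        refine (TopologicalSpace.denseRange_denseSeq M).equalizer f.continuous g.continuous ?_
        funext n
        exact congrFun h n
      exact DFunLike.coe_injective h1
    have hemb := hc.measurableEmbedding hinj
    intro s hs
    have h1 : MeasurableSet (ev '' s) := hemb.measurableSet_image.2 hs
    have h2 : s = ev ⁻¹' (ev '' s) := (preimage_image_eq s hinj).symm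
    rw [h2]
    have h3 : @Measurable _ _ (evalSigma E M) _ ev := by
      refine @measurable_pi_lambda _ _ _ (evalSigma E M) _ _ fun n => ?_
      rw [measurable_iff_comap_le]
      exact le_iSup (fun m : M => MeasurableSpace.comap
        (fun f : M ≃ₘ⟮𝓘(ℝ, E), 𝓘(ℝ, E)⟯ M => f m) (borel M)) (d n)
    exact h3 h1
  · refine iSup_le fun m => ?_
    rw [← measurable_iff_comap_le]
    exact (hev m).borel_measurable

end Main

end Pool.Agent.Lib.P9aeaaa
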