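import Mathlib

/-!
# Baire category: the Kuratowski–Ulam theorem and the Baire property of analytic sets
-/

set_option linter.unusedSectionVars false

namespace Pool.Agent.Lib.P9aeaaa

open Set Filter Topology TopologicalSpace

section KU

variable {X Y : Type*} [TopologicalSpace X] [TopologicalSpace Y]

/-- Kuratowski–Ulam, easy direction. -/
theorem ku [SecondCountableTopology Y] {P : X × Y → Prop}
    (h : ∀ᶠ z in residual (X × Y), P z) : ∀ᶠ x in residual X, ∀ᶠ y in residual Y, P (x, y) := by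
  obtain ⟨S, hSo, hSd, hSc, hS⟩ := mem_residual_iff.1 h
  have key : ∀ U ∈ S, ∀ᶠ x in residual X, {y | (x, y) ∈ U} ∈ residual Y := by
    intro U hU
    have h1 : ∀ V ∈ countableBasis Y, ∀ᶠ x in residual X, ∃ y ∈ V, (x, y) ∈ U := by
      intro V hV
      have hVo := isOpen_of_mem_countableBasis hV
      have hVn := nonempty_of_mem_countableBasis hV
      have h2 : {x | ∃ y ∈ V, (x, y) ∈ U} = Prod.fst '' (U ∩ (univ ×ˢ V)) := by
        ext x
        constructor
        · rintro ⟨y, hy, hxy⟩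
          exact ⟨(x, y), ⟨hxy, mem_univ _, hy⟩, rfl⟩
        · rintro ⟨⟨x', y⟩, ⟨hxy, -, hy⟩, rfl⟩
          exact ⟨y, hy, hxy⟩
      have ho : IsOpen {x | ∃ y ∈ V, (x, y) ∈ U} := by
        rw [h2]
        exact isOpenMap_fst _ ((hSo U hU).inter (isOpen_univ.prod hVo))
      have hd : Dense {x | ∃ y ∈ V, (x, y) ∈ U} := by
        rw [dense_iff_inter_open]
        intro W hW hWn
        obtain ⟨⟨x, y⟩, ⟨hx, hy⟩, hxy⟩ := (hSd U hU).inter_open_nonempty (W ×ˢ V) (hW.prod hVo)
          (hWn.prod hVn)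
        exact ⟨x, hx, y, hy, hxy⟩
      exact residual_of_dense_open ho hd
    have h3 := (eventually_countable_ball (countable_countableBasis Y)).2 h1
    refine h3.mono fun x hx => ?_
    refine residual_of_dense_open ?_ ?_
    · exact (hSo U hU).preimage (Continuous.prodMk_right x)
    · rw [dense_iff_inter_open]
      intro W hW hWn
      obtain ⟨y, hy⟩ := hWn
      obtain ⟨V, hV, hyV, hVW⟩ := (isBasis_countableBasis Y).exists_subset_of_mem_open hy hW
      obtain ⟨y', hy', hy''⟩ := hx V hV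
      exact ⟨y', hVW hy', hy''⟩
  have h4 := (eventually_countable_ball hSc).2 key
  refine h4.mono fun x hx => ?_
  have h5 := (countable_bInter_mem hSc).2 hx
  refine mem_of_superset h5 fun y hy => ?_
  apply hS
  rw [mem_sInter]
  intro U hU
  exact mem_iInter₂.1 hy U hU

/-- `S` is comeager in the open set `V`. -/
def ComIn (V S : Set X) : Prop := ∀ᶠ x in residual X, x ∈ V → x ∈ S

/-- The largest open set in which `S` is comeager. -/
def core (S : Set X) : Set X := ⋃₀ {V | IsOpen V ∧ ComIn V S}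

theorem isOpen_core (S : Set X) : IsOpen (core S) := isOpen_sUnion fun _ h => h.1

theorem subset_core {S V : Set X} (hV : IsOpen V) (h : ComIn V S) : V ⊆ core S :=
  subset_sUnion_of_mem ⟨hV, h⟩

theorem comIn_core [SecondCountableTopology X] (S : Set X) : ComIn (core S) S := by
  obtain ⟨T, hTc, hTs, hTu⟩ := isOpen_sUnion_countable {V | IsOpen V ∧ ComIn V S}
    (fun _ h => h.1)
  have h1 : ∀ V ∈ T, ∀ᶠ x in residual X, x ∈ V → x ∈ S := fun V hV => (hTs hV).2
  have h2 := (eventually_countable_ball hTc).2 h1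
  refine h2.mono fun x hx hxc => ?_
  have h3 : x ∈ ⋃₀ T := by
    rw [hTu]
    exact hxc
  obtain ⟨V, hV, hxV⟩ := h3
  exact hx V hV hxV

theorem ComIn.mono {V S T : Set X} (h : ComIn V S) (hST : S ⊆ T) : ComIn V T :=
  Eventually.mono h fun _ hx hxV => hST (hx hxV)

theorem ComIn.anti {V W S : Set X} (h : ComIn V S) (hW : W ⊆ V) : ComIn W S :=
  Eventually.mono h fun _ hx hxV => hx (hW hxV)

/-- In a Baire space, a comeager property holds somewhere in each nonempty open set. -/
theorem exists_of_residual [BaireSpace X] {V : Set X} (hV : IsOpen V) (hVn : V.Nonempty)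
    {P : X → Prop} (h : ∀ᶠ x in residual X, P x) : ∃ x ∈ V, P x := by
  have hd : Dense {x | P x} := dense_of_mem_residual h
  obtain ⟨x, hx, hPx⟩ := hd.inter_open_nonempty V hV hVn
  exact ⟨x, hx, hPx⟩

theorem not_comIn_both [BaireSpace X] {V S : Set X} (hV : IsOpen V) (hVn : V.Nonempty)
    (h : ComIn V S) (h' : ComIn V Sᶜ) : False := by
  obtain ⟨x, hx, h1, h2⟩ := exists_of_residual hV hVn (h.and h')
  exact h2 hx (h1 hx)

/-- The Baire property. -/
def BP (S : Set X) : Prop := ∃ u : Set X, IsOpen u ∧ ∀ᶠ x in residual X, (x ∈ S ↔ x ∈ u)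

theorem BP.of_open {S : Set X} (h : IsOpen S) : BP S := ⟨S, h, Eventually.of_forall fun _ => Iff.rfl⟩

theorem BP.of_eventually {S T : Set X} (h : BP S) (hST : ∀ᶠ x in residual X, (x ∈ T ↔ x ∈ S)) :
    BP T := by
  obtain ⟨u, hu, hu'⟩ := h
  exact ⟨u, hu, (hu'.and hST).mono fun x hx => hx.2.trans hx.1⟩

theorem bp_iff {S : Set X} : BP S ↔ BaireMeasurableSet S := by
  constructor
  · rintro ⟨u, hu, h⟩
    refine (hu.baireMeasurableSet).congr ?_
    filter_upwards [h] with x hx
    exact propext hx.symm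
  · intro h
    obtain ⟨u, hu, h'⟩ := h.residualEq_isOpen
    refine ⟨u, hu, ?_⟩
    filter_upwards [h'] with x hx
    exact iff_of_eq hx

theorem BP.compl {S : Set X} (h : BP S) : BP Sᶜ := bp_iff.2 (bp_iff.1 h).compl

theorem BP.union {S T : Set X} (h : BP S) (h' : BP T) : BP (S ∪ T) :=
  bp_iff.2 ((bp_iff.1 h).union (bp_iff.1 h'))

theorem BP.inter {S T : Set X} (h : BP S) (h' : BP T) : BP (S ∩ T) :=
  bp_iff.2 ((bp_iff.1 h).inter (bp_iff.1 h'))

theorem BP.iUnion {ι : Type*} [Countable ι] {S : ι → Set X} (h : ∀ i, BP (S i)) : BP (⋃ i, S i) :=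
  bp_iff.2 (BaireMeasurableSet.iUnion fun i => bp_iff.1 (h i))

theorem BP.iInter {ι : Type*} [Countable ι] {S : ι → Set X} (h : ∀ i, BP (S i)) : BP (⋂ i, S i) :=
  bp_iff.2 (BaireMeasurableSet.iInter fun i => bp_iff.1 (h i))

theorem BP.of_measurable [MeasurableSpace X] [BorelSpace X] {S : Set X} (h : MeasurableSet S) :
    BP S := bp_iff.2 h.baireMeasurableSet

/-- A set with the Baire property is, up to a meager set, its open core. -/
theorem BP.core_eq [SecondCountableTopology X] {S : Set X} (h : BP S) :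
    ∀ᶠ x in residual X, (x ∈ S ↔ x ∈ core S) := by
  obtain ⟨u, hu, hu'⟩ := h
  have h1 : u ⊆ core S := subset_core hu (hu'.mono fun x hx hxu => hx.2 hxu)
  filter_upwards [hu', comIn_core S] with x h2 h3
  exact ⟨fun h => h1 (h2.1 h), h3⟩

/-- Sections of sets with the Baire property. -/
theorem BP.section [SecondCountableTopology Y] {S : Set (X × Y)} (h : BP S) :
    ∃ u : Set (X × Y), IsOpen u ∧
      ∀ᶠ x in residual X, ∀ᶠ y in residual Y, ((x, y) ∈ S ↔ (x, y) ∈ u) := by
  obtain ⟨u, hu, hu'⟩ := h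
  exact ⟨u, hu, ku (P := fun z => z ∈ S ↔ z ∈ u) hu'⟩

/-- The category quantifier preserves the Baire property. -/
theorem BP.exists_star [SecondCountableTopology Y] [BaireSpace Y] {S : Set (X × Y)} (h : BP S)
    {V : Set Y} (hV : IsOpen V) : BP {x | ¬ ComIn V {y | (x, y) ∉ S}} := by
  obtain ⟨u, hu, hu'⟩ := h.section
  refine ⟨Prod.fst '' (u ∩ (univ ×ˢ V)), isOpenMap_fst _ (hu.inter (isOpen_univ.prod hV)), ?_⟩
  filter_upwards [hu'] with x hx
  constructor
  · intro h1
    by_contra h2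
    apply h1
    filter_upwards [hx] with y hy hyV hyS
    exact h2 ⟨(x, y), ⟨hy.1 hyS, mem_univ _, hyV⟩, rfl⟩
  · rintro ⟨⟨x', y⟩, ⟨hxy, -, hy⟩, rfl⟩ h1
    have h2 : ∀ᶠ y' in residual Y, ((x', y') ∈ S ↔ (x', y') ∈ u) ∧ (y' ∈ V → (x', y') ∉ S) :=
      hx.and h1
    have ho : IsOpen {y' | (x', y') ∈ u ∧ y' ∈ V} :=
      (hu.preimage (Continuous.prodMk_right x')).inter hV
    obtain ⟨y', ⟨h3, h4⟩, h5, h6⟩ := exists_of_residual ho ⟨y, hxy, hy⟩ h2
    exact h6 h4 (h5.2 h3)

theorem BP.forall_star [SecondCountableTopology Y] [BaireSpace Y] {S : Set (X × Y)} (h : BP S)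
    {V : Set Y} (hV : IsOpen V) : BP {x | ComIn V {y | (x, y) ∈ S}} := by
  have h1 := (h.compl.exists_star hV).compl
  have h2 : {x | ComIn V {y | (x, y) ∈ S}} = {x | ¬ ComIn V {y | (x, y) ∉ Sᶜ}}ᶜ := by
    ext x
    simp
  rw [h2]
  exact h1

/-- Kuratowski–Ulam, converse direction for sets with the Baire property. -/
theorem BP.ku_converse [SecondCountableTopology Y] [BaireSpace X] [BaireSpace Y] {S : Set (X × Y)}
    (h : BP S) (hS : ∀ᶠ x in residual X, ∀ᶠ y in residual Y, (x, y) ∈ S) :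
    ∀ᶠ z in residual (X × Y), z ∈ S := by
  obtain ⟨u, hu, hu'⟩ := h
  have h1 := ku (P := fun z => z ∈ S ↔ z ∈ u) hu'
  have hd : Dense u := by
    rw [dense_iff_inter_open]
    intro W hW hWn
    obtain ⟨⟨x, y⟩, hxy⟩ := hWn
    obtain ⟨V1, V2, hV1, hV2, hx, hy, hsub⟩ := isOpen_prod_iff.1 hW x y hxy
    obtain ⟨x', hx', h2, h3⟩ := exists_of_residual hV1 ⟨x, hx⟩ (h1.and hS)
    obtain ⟨y', hy', h4, h5⟩ := exists_of_residual hV2 ⟨y, hy⟩ (h2.and h3)
    exact ⟨(x', y'), hsub ⟨hx', hy'⟩, h4.1 h5⟩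
  have h2 : ∀ᶠ z in residual (X × Y), z ∈ u := residual_of_dense_open hu hd
  exact (hu'.and h2).mono fun z hz => hz.1.2 hz.2

/-- A nonmeager set with the Baire property is comeager in a nonempty open subset of `W`. -/
theorem BP.exists_comIn [SecondCountableTopology X] {S W : Set X} (h : BP S) (hW : IsOpen W)
    (hn : ¬ ComIn W Sᶜ) : ∃ V ⊆ W, IsOpen V ∧ V.Nonempty ∧ ComIn V S := by
  refine ⟨W ∩ core S, inter_subset_left, hW.inter (isOpen_core S), ?_,
    (comIn_core S).anti inter_subset_right⟩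
  by_contra hcon
  rw [not_nonempty_iff_eq_empty] at hcon
  apply hn
  filter_upwards [h.core_eq] with x hx hxW hxS
  have : x ∈ W ∩ core S := ⟨hxW, hx.1 hxS⟩
  rw [hcon] at this
  exact this

end KU

section Nikodym

variable {X : Type*} [TopologicalSpace X] [SecondCountableTopology X] [BaireSpace X] [T2Space X]

/-- The hull of a set. -/
def hull (S : Set X) : Set X := (core Sᶜ)ᶜ ∪ S

theorem subset_hull (S : Set X) : S ⊆ hull S := subset_union_right

theorem bp_hull (S : Set X) : BP (hull S) := by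
  refine BP.of_eventually (BP.of_open (isOpen_core Sᶜ)).compl ?_
  filter_upwards [comIn_core Sᶜ] with x hx
  constructor
  · rintro (h | h)
    · exact h
    · exact fun h' => hx h' h
  · exact fun h => Or.inl h

theorem hull_subset_closure (S : Set X) : hull S ⊆ closure S := by
  rintro x (h | h)
  · by_contra hx
    apply h
    refine subset_core (V := (closure S)ᶜ) isClosed_closure.isOpen_compl ?_ hx
    exact Eventually.of_forall fun y hy hyS => hy (subset_closure hyS)
  · exact subset_closure h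

theorem hull_min {S T : Set X} (hT : BP T) (hST : S ⊆ T) :
    ∀ᶠ x in residual X, x ∈ hull S → x ∈ T := by
  by_contra hcon
  have h1 : BP (hull S \ T) := (bp_hull S).inter hT.compl
  obtain ⟨V, -, hV, hVn, hVc⟩ := h1.exists_comIn isOpen_univ (by
    intro h2
    apply hcon
    filter_upwards [h2] with x hx hxh
    by_contra hxT
    exact hx (mem_univ x) ⟨hxh, hxT⟩)
  have h2 : V ⊆ core Sᶜ := by
    refine subset_core hV ?_
    filter_upwards [hVc] with x hx hxV hxS
    exact (hx hxV).2 (hST hxS)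
  obtain ⟨x, hx, h3⟩ := exists_of_residual hV hVn hVc
  rcases (h3 hx).1 with h4 | h4
  · exact h4 (h2 hx)
  · exact (h3 hx).2 (hST h4)

/-- The cylinder of a finite sequence in Baire space. -/
def cylN (σ : List ℕ) : Set (ℕ → ℕ) := {α | ∀ i (h : i < σ.length), α i = σ[i]}

/-- Nikodym: analytic sets have the Baire property. -/
theorem bp_range {f : (ℕ → ℕ) → X} (hf : Continuous f) : BP (range f) := by
  classical
  let s : List ℕ → Set X := fun σ => f '' cylN σ
  have hs0 : s [] = range f := by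
    show f '' cylN [] = _
    have : cylN [] = univ := by
      ext α
      simp [cylN]
    rw [this, image_univ]
  have hss : ∀ σ, s σ ⊆ ⋃ n, hull (s (σ ++ [n])) := by
    rintro σ _ ⟨α, hα, rfl⟩
    refine mem_iUnion.2 ⟨α σ.length, subset_hull _ ⟨α, ?_, rfl⟩⟩
    intro i hi
    rw [List.length_append, List.length_singleton] at hi
    rcases Nat.lt_succ_iff_lt_or_eq.1 hi with h | rfl
    · rw [List.getElem_append_left h]
      exact hα i h
    · simp
  have hM : ∀ᶠ x in residual X, ∀ σ : List ℕ, x ∈ hull (s σ) → x ∈ ⋃ n, hull (s (σ ++ [n])) := by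
    rw [eventually_countable_forall]
    intro σ
    exact hull_min (BP.iUnion fun n => bp_hull _) (hss σ)
  refine BP.of_eventually (bp_hull (range f)) ?_
  filter_upwards [hM] with x hx
  refine ⟨fun h => subset_hull _ h, fun h => ?_⟩
  rw [← hs0] at h
  -- build the branch
  have hstep : ∀ σ : List ℕ, x ∈ hull (s σ) → ∃ n, x ∈ hull (s (σ ++ [n])) := fun σ hσ =>
    mem_iUnion.1 (hx σ hσ)
  let b : ℕ → {σ : List ℕ // x ∈ hull (s σ)} := fun n => Nat.rec ⟨[], h⟩
    (fun _ σ => ⟨σ.1 ++ [(hstep σ.1 σ.2).choose], (hstep σ.1 σ.2).choose_spec⟩) n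
  have hb : ∀ n, (b (n + 1)).1 = (b n).1 ++ [(hstep (b n).1 (b n).2).choose] := fun n => rfl
  have hlen : ∀ n, (b n).1.length = n := by
    intro n
    induction n with
    | zero => rfl
    | succ n ih => rw [hb, List.length_append, ih, List.length_singleton]
  have hpre : ∀ n m, n ≤ m → (b n).1 <+: (b m).1 := by
    intro n m hnm
    induction m, hnm using Nat.le_induction with
    | base => exact List.prefix_rfl
    | succ m _ ih => rw [hb]; exact ih.trans (List.prefix_append _ _)
  let α : ℕ → ℕ := fun n => (b (n + 1)).1.getD n 0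
  have hα : ∀ n, α ∈ cylN (b n).1 := by
    intro n i hi
    have hin : i < n := by rw [hlen] at hi; exact hi
    obtain ⟨t, ht⟩ := hpre (i + 1) n hin
    have h1 : i < (b (i + 1)).1.length := by
      have := hlen (i + 1)
      omega
    have h2 : (b n).1[i] = (b (i + 1)).1[i] := by
      simp only [← ht]
      rw [List.getElem_append_left h1]
    rw [h2]
    show (b (i + 1)).1.getD i 0 = _
    rw [List.getD_eq_getElem?_getD, List.getElem?_eq_getElem h1]
    rfl
  refine ⟨α, ?_⟩
  by_contra hne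
  obtain ⟨U, V, hU, hV, hfU, hxV, hUV⟩ := t2_separation hne
  have hfU' : f ⁻¹' U ∈ 𝓝 α := hf.continuousAt.preimage_mem_nhds (hU.mem_nhds hfU)
  rw [nhds_pi, Filter.mem_pi'] at hfU'
  obtain ⟨I, t, ht, hsub⟩ := hfU'
  obtain ⟨n, hn⟩ : ∃ n, ∀ i ∈ I, i < n := ⟨I.sup id + 1, fun i hi =>
    Nat.lt_succ_of_le (Finset.le_sup (f := id) hi)⟩
  have h1 : s (b n).1 ⊆ U := by
    rintro _ ⟨β, hβ, rfl⟩
    apply hsub
    intro i hi
    have hin := hn i hi
    have h2 : β i = α i := by
      rw [hβ i (by rw [hlen]; exact hin), hα n i (by rw [hlen]; exact hin)]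
    rw [h2]
    exact mem_of_mem_nhds (ht i)
  have h2 := hull_subset_closure _ (b n).2
  have h3 : x ∈ closure U := closure_mono h1 h2
  rw [mem_closure_iff] at h3
  obtain ⟨y, hy1, hy2⟩ := h3 V hV hxV
  exact (Set.disjoint_left.1 hUV) hy2 hy1

theorem bp_analytic {S : Set X} (h : MeasureTheory.AnalyticSet S) : BP S := by
  rw [MeasureTheory.AnalyticSet] at h
  rcases h with rfl | ⟨f, hf, rfl⟩
  · exact BP.of_open isOpen_empty
  · exact bp_range hf

end Nikodym

end Pool.Agent.Lib.P9aeaaa
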