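import Pool.Agent.Lib.P9aeaaa.Shear

/-!
# Extending maps of a Euclidean space with small support to a compact manifold
-/

set_option linter.unusedSectionVars false

namespace Pool.Agent.Lib.P9aeaaa

open Set Filter Topology Metric
open scoped RealInnerProductSpace ContDiff NNReal Manifold

variable {E : Type*} [NormedAddCommGroup E] [InnerProductSpace ℝ E] [FiniteDimensional ℝ E]
  {M : Type*} [TopologicalSpace M] [ChartedSpace E M] [IsManifold 𝓘(ℝ, E) ∞ M]

/-- A smooth embedding of the ball of radius `2`, with its inverse. -/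
structure UC (E M : Type*) [NormedAddCommGroup E] [InnerProductSpace ℝ E]
    [TopologicalSpace M] [ChartedSpace E M] where
  j : E → M
  κ : M → E
  left : ∀ ξ ∈ ball (0 : E) 2, κ (j ξ) = ξ
  openU : IsOpen (j '' ball 0 2)
  smooth_j : ContMDiffOn 𝓘(ℝ, E) 𝓘(ℝ, E) ∞ j (ball 0 2)
  smooth_κ : ContMDiffOn 𝓘(ℝ, E) 𝓘(ℝ, E) ∞ κ (j '' ball 0 2)

theorem exists_uc [Nonempty M] : Nonempty (UC E M) := by
  obtain ⟨m⟩ := ‹Nonempty M›
  let φ := chartAt E m
  have hm : φ m ∈ φ.target := mem_chart_target E m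
  obtain ⟨ρ, hρ, hball⟩ := Metric.isOpen_iff.1 φ.open_target _ hm
  let α : E → E := fun ξ => φ m + (ρ / 2) • ξ
  let β : E → E := fun η => (2 / ρ) • (η - φ m)
  have hβα : ∀ ξ, β (α ξ) = ξ := by
    intro ξ
    show (2 / ρ) • (φ m + (ρ / 2) • ξ - φ m) = ξ
    rw [add_sub_cancel_left, smul_smul]
    have : 2 / ρ * (ρ / 2) = 1 := by field_simp
    rw [this, one_smul]
  have hαβ : ∀ ξ, α (β ξ) = ξ := by
    intro ξ
    show φ m + (ρ / 2) • ((2 / ρ) • (ξ - φ m)) = ξ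
    rw [smul_smul]
    have : ρ / 2 * (2 / ρ) = 1 := by field_simp
    rw [this, one_smul]
    abel
  have hα : ∀ ξ ∈ ball (0 : E) 2, α ξ ∈ φ.target := by
    intro ξ hξ
    apply hball
    rw [mem_ball_iff_norm]
    show ‖φ m + (ρ / 2) • ξ - φ m‖ < ρ
    rw [add_sub_cancel_left, norm_smul, Real.norm_of_nonneg (by positivity)]
    rw [mem_ball_zero_iff] at hξ
    calc ρ / 2 * ‖ξ‖ < ρ / 2 * 2 := by gcongr
      _ = ρ := by ring
  have hαs : ContDiff ℝ ∞ α := contDiff_const.add (contDiff_const.smul contDiff_id)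
  have hβs : ContDiff ℝ ∞ β := contDiff_const.smul (contDiff_id.sub contDiff_const)
  have himg : (fun ξ => φ.symm (α ξ)) '' ball 0 2 = φ.source ∩ φ ⁻¹' (β ⁻¹' ball 0 2) := by
    ext x
    constructor
    · rintro ⟨ξ, hξ, rfl⟩
      refine ⟨φ.map_target (hα ξ hξ), ?_⟩
      show β (φ (φ.symm (α ξ))) ∈ ball 0 2
      rw [φ.right_inv (hα ξ hξ), hβα]
      exact hξ
    · rintro ⟨hx, hx'⟩
      refine ⟨β (φ x), hx', ?_⟩
      show φ.symm (α (β (φ x))) = x
      rw [hαβ, φ.left_inv hx]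
  refine ⟨⟨fun ξ => φ.symm (α ξ), fun x => β (φ x), ?_, ?_, ?_, ?_⟩⟩
  · intro ξ hξ
    show β (φ (φ.symm (α ξ))) = ξ
    rw [φ.right_inv (hα ξ hξ), hβα]
  · rw [himg]
    exact φ.isOpen_inter_preimage (isOpen_ball.preimage hβs.continuous)
  · have h1 : ContMDiffOn 𝓘(ℝ, E) 𝓘(ℝ, E) ∞ φ.symm φ.target := contMDiffOn_chart_symm
    exact h1.comp hαs.contMDiff.contMDiffOn hα
  · have h1 : ContMDiffOn 𝓘(ℝ, E) 𝓘(ℝ, E) ∞ φ φ.source := contMDiffOn_chart
    refine hβs.contMDiff.comp_contMDiffOn (h1.mono ?_)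
    rw [himg]
    exact inter_subset_left

variable (c : UC E M)

/-- Extension by the identity. -/
noncomputable def ext (F : E → E) (m : M) : M := by
  classical exact if m ∈ c.j '' ball 0 2 then c.j (F (c.κ m)) else m

theorem ext_j {F : E → E} {ξ : E} (h : ξ ∈ ball (0 : E) 2) : ext c F (c.j ξ) = c.j (F ξ) := by
  unfold ext
  rw [if_pos ⟨ξ, h, rfl⟩, c.left ξ h]

theorem ext_not {F : E → E} {m : M} (h : m ∉ c.j '' ball 0 2) : ext c F m = m := by
  unfold ext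
  rw [if_neg h]

theorem ext_j_id {F : E → E} (hF : ∀ ξ, 3 / 2 ≤ ‖ξ‖ → F ξ = ξ) {m : M}
    (hm : m ∉ c.j '' closedBall 0 (3 / 2)) : ext c F m = m := by
  by_cases h : m ∈ c.j '' ball 0 2
  · obtain ⟨ξ, hξ, rfl⟩ := h
    rw [ext_j c hξ, hF]
    by_contra hcon
    push Not at hcon
    apply hm
    exact ⟨ξ, mem_closedBall_zero_iff.2 hcon.le, rfl⟩
  · exact ext_not c h

theorem UC.cont_j : ContinuousOn c.j (ball 0 2) := c.smooth_j.continuousOn

theorem UC.cont_κ : ContinuousOn c.κ (c.j '' ball 0 2) := c.smooth_κ.continuousOn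

theorem UC.inj : InjOn c.j (ball 0 2) := by
  intro x hx y hy h
  rw [← c.left x hx, ← c.left y hy, h]

theorem UC.closedBall_sub {r : ℝ} (hr : r < 2) : closedBall (0 : E) r ⊆ ball 0 2 := by
  intro x hx
  rw [mem_closedBall_zero_iff] at hx
  rw [mem_ball_zero_iff]
  linarith

theorem UC.isCompact {r : ℝ} (hr : r < 2) : IsCompact (c.j '' closedBall 0 r) :=
  (isCompact_closedBall 0 r).image_of_continuousOn (c.cont_j.mono (UC.closedBall_sub hr))

theorem UC.isOpen_image {V : Set E} (hV : IsOpen V) (hsub : V ⊆ ball 0 2) : IsOpen (c.j '' V) := by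
  have h : c.j '' V = c.j '' ball 0 2 ∩ c.κ ⁻¹' V := by
    ext m
    constructor
    · rintro ⟨ξ, hξ, rfl⟩
      refine ⟨⟨ξ, hsub hξ, rfl⟩, ?_⟩
      show c.κ (c.j ξ) ∈ V
      rw [c.left ξ (hsub hξ)]
      exact hξ
    · rintro ⟨⟨ξ, hξ, rfl⟩, h2⟩
      have h3 : c.κ (c.j ξ) ∈ V := h2
      rw [c.left ξ hξ] at h3
      exact ⟨ξ, h3, rfl⟩
  rw [h]
  exact c.cont_κ.isOpen_inter_preimage c.openU hV

/-- The requirements on the maps to be extended. -/
structure Adm (F : E → E) : Prop where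
  id_out : ∀ ξ, 3 / 2 ≤ ‖ξ‖ → F ξ = ξ
  ball : ∀ ξ ∈ ball (0 : E) 2, F ξ ∈ Metric.ball (0 : E) 2

theorem adm_of_equiv (e : E ≃ E) (h : ∀ ξ, 3 / 2 ≤ ‖ξ‖ → e ξ = ξ) : Adm (E := E) e := by
  refine ⟨h, fun ξ hξ => ?_⟩
  by_contra hcon
  rw [mem_ball_zero_iff, not_lt] at hcon
  have h1 := h (e ξ) (by linarith)
  have h2 := e.injective h1
  rw [h2, ← not_lt] at hcon
  rw [mem_ball_zero_iff] at hξ
  exact hcon hξ

theorem adm_symm (e : E ≃ E) (h : ∀ ξ, 3 / 2 ≤ ‖ξ‖ → e ξ = ξ) : Adm (E := E) e.symm := by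
  refine adm_of_equiv e.symm fun ξ hξ => ?_
  rw [Equiv.symm_apply_eq]
  exact (h ξ hξ).symm

theorem ext_comp {F G : E → E} (hG : Adm G) (m : M) :
    ext c F (ext c G m) = ext c (fun ξ => F (G ξ)) m := by
  by_cases h : m ∈ c.j '' ball 0 2
  · obtain ⟨ξ, hξ, rfl⟩ := h
    rw [ext_j c hξ, ext_j c hξ, ext_j c (hG.ball ξ hξ)]
  · rw [ext_not c h, ext_not c h, ext_not c h]

theorem ext_id (m : M) : ext c (fun ξ => ξ) m = m := by
  by_cases h : m ∈ c.j '' ball 0 2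
  · obtain ⟨ξ, hξ, rfl⟩ := h
    rw [ext_j c hξ]
  · exact ext_not c h

theorem ext_contMDiff [T2Space M] {F : E → E} (hF : Adm F) (hs : ContDiff ℝ ∞ F) :
    ContMDiff 𝓘(ℝ, E) 𝓘(ℝ, E) ∞ (ext c F) := by
  intro m
  by_cases h : m ∈ c.j '' ball 0 2
  · have h1 : ContMDiffOn 𝓘(ℝ, E) 𝓘(ℝ, E) ∞ (fun m => c.j (F (c.κ m))) (c.j '' ball 0 2) := by
      refine c.smooth_j.comp (hs.contMDiff.comp_contMDiffOn c.smooth_κ) ?_
      rintro _ ⟨ξ, hξ, rfl⟩
      show F (c.κ (c.j ξ)) ∈ ball 0 2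
      rw [c.left ξ hξ]
      exact hF.ball ξ hξ
    have h2 := h1.contMDiffAt (c.openU.mem_nhds h)
    refine h2.congr_of_eventuallyEq ?_
    filter_upwards [c.openU.mem_nhds h] with x hx
    unfold ext
    rw [if_pos hx]
  · have hcl : IsClosed (c.j '' closedBall 0 (3 / 2)) := (c.isCompact (by norm_num)).isClosed
    have h3 : m ∉ c.j '' closedBall 0 (3 / 2) := fun h' =>
      h (image_mono (UC.closedBall_sub (by norm_num)) h')
    have h2 : ContMDiffAt 𝓘(ℝ, E) 𝓘(ℝ, E) ∞ (fun m : M => m) m := contMDiffAt_id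
    refine h2.congr_of_eventuallyEq ?_
    filter_upwards [hcl.isOpen_compl.mem_nhds h3] with x hx
    exact ext_j_id c hF.id_out hx

theorem ext_continuous [T2Space M] {F : E → E} (hF : Adm F) (hs : Continuous F) :
    Continuous (ext c F) := by
  rw [continuous_iff_continuousAt]
  intro m
  by_cases h : m ∈ c.j '' ball 0 2
  · have h1 : ContinuousOn (fun m => c.j (F (c.κ m))) (c.j '' ball 0 2) := by
      refine c.cont_j.comp (hs.comp_continuousOn c.cont_κ) ?_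
      rintro _ ⟨ξ, hξ, rfl⟩
      show F (c.κ (c.j ξ)) ∈ ball 0 2
      rw [c.left ξ hξ]
      exact hF.ball ξ hξ
    have h2 := h1.continuousAt (c.openU.mem_nhds h)
    refine h2.congr ?_
    filter_upwards [c.openU.mem_nhds h] with x hx
    unfold ext
    rw [if_pos hx]
  · have hcl : IsClosed (c.j '' closedBall 0 (3 / 2)) := (c.isCompact (by norm_num)).isClosed
    have h3 : m ∉ c.j '' closedBall 0 (3 / 2) := fun h' =>
      h (image_mono (UC.closedBall_sub (by norm_num)) h')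
    have h2 : ContinuousAt (fun m : M => m) m := continuousAt_id
    refine h2.congr ?_
    filter_upwards [hcl.isOpen_compl.mem_nhds h3] with x hx
    exact (ext_j_id c hF.id_out hx).symm

/-- Extension of a bijection. -/
noncomputable def extEquiv (e : E ≃ E) (h : ∀ ξ, 3 / 2 ≤ ‖ξ‖ → e ξ = ξ) : M ≃ M where
  toFun := ext c e
  invFun := ext c e.symm
  left_inv m := by
    rw [ext_comp c (adm_of_equiv e h)]
    simp only [Equiv.symm_apply_apply]
    exact ext_id c m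
  right_inv m := by
    rw [ext_comp c (adm_symm e h)]
    simp only [Equiv.apply_symm_apply]
    exact ext_id c m

/-- Extension of a diffeomorphism. -/
theorem exists_diffeo [T2Space M] {F : E → E} (e : E ≃ₜ E) (he : ∀ x, e x = F x)
    (hF : ContDiff ℝ ∞ F) (hs : ContDiff ℝ ∞ e.symm) (h : ∀ ξ, 3 / 2 ≤ ‖ξ‖ → F ξ = ξ) :
    ∃ f : M ≃ₘ⟮𝓘(ℝ, E), 𝓘(ℝ, E)⟯ M, ∀ m, f m = ext c F m := by
  have he' : (e : E → E) = F := funext he
  have h' : ∀ ξ, 3 / 2 ≤ ‖ξ‖ → e.toEquiv ξ = ξ := fun ξ hξ => (he ξ).trans (h ξ hξ)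
  refine ⟨⟨extEquiv c e.toEquiv h', ?_, ?_⟩, fun m => ?_⟩
  · refine ext_contMDiff c (adm_of_equiv e.toEquiv h') ?_
    show ContDiff ℝ ∞ (e : E → E)
    rw [he']
    exact hF
  · exact ext_contMDiff c (adm_symm e.toEquiv h') hs
  · show ext c (e : E → E) m = _
    rw [he']

/-- Extension of a continuous bijection to a homeomorphism of a compact manifold. -/
theorem exists_homeo [T2Space M] [CompactSpace M] {F : E → E} (hF : Continuous F)
    (hb : Function.Bijective F) (h : ∀ ξ, 3 / 2 ≤ ‖ξ‖ → F ξ = ξ) :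
    ∃ f : M ≃ₜ M, ∀ m, f m = ext c F m := by
  let e := Equiv.ofBijective F hb
  have hc : Continuous (extEquiv c e h) := ext_continuous c (adm_of_equiv e h) hF
  exact ⟨hc.homeoOfEquivCompactToT2, fun m => rfl⟩

end Pool.Agent.Lib.P9aeaaa
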