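import Pool.Agent.Lib.P9aeaaa.Ext

/-!
# The family of diffeomorphisms and its conjugacy invariants
-/

set_option linter.unusedSectionVars false

namespace Pool.Agent.Lib.P9aeaaa

open Set Filter Topology Metric
open scoped RealInnerProductSpace ContDiff NNReal Manifold

variable {E : Type*} [NormedAddCommGroup E] [InnerProductSpace ℝ E] [FiniteDimensional ℝ E]
  {M : Type*} [TopologicalSpace M] [ChartedSpace E M] [IsManifold 𝓘(ℝ, E) ∞ M] [CompactSpace M]
  [T2Space M]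

variable (fr : Frame E) (P : Prof E) (c : UC E M)

/-- Positions are small. -/
def Small (s : ℕ → ℝ) : Prop := ∀ i, |s i| ≤ 1 / 8

theorem mapF_out {s : ℕ → ℝ} (hs : Small s) {ξ : E} (h : 3 / 2 ≤ ‖ξ‖) : mapF fr P s ξ = ξ := by
  rw [mapF_eq_self_iff]
  by_contra hne
  obtain ⟨i, hi, -⟩ := (phi_ne_zero_iff fr P).1 hne
  have := norm_lt_of_mem_ball fr (hs i) hi
  linarith

theorem adm_mapF {s : ℕ → ℝ} (hs : Small s) : Adm (mapF fr P s) := by
  obtain ⟨e, he, -⟩ := exists_homeo_mapF fr P s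
  have h1 : (e.toEquiv : E → E) = mapF fr P s := funext he
  rw [← h1]
  refine adm_of_equiv e.toEquiv fun ξ hξ => ?_
  rw [h1]
  exact mapF_out fr P hs hξ

/-- The extended map. -/
noncomputable def fM (s : ℕ → ℝ) : M → M := ext c (mapF fr P s)

theorem exists_diffeo_fM {s : ℕ → ℝ} (hs : Small s) :
    ∃ f : M ≃ₘ⟮𝓘(ℝ, E), 𝓘(ℝ, E)⟯ M, ∀ m, f m = fM fr P c s m := by
  obtain ⟨e, he, hes⟩ := exists_homeo_mapF fr P s
  exact exists_diffeo c e he (contDiff_mapF fr P s) hes fun ξ hξ => mapF_out fr P hs hξ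

theorem continuous_fM {s : ℕ → ℝ} (hs : Small s) : Continuous (fM fr P c s) :=
  ext_continuous c (adm_mapF fr P hs) (contDiff_mapF fr P s).continuous

/-- Continuity in the parameter. -/
theorem continuous_fM_param {Z : Type*} [TopologicalSpace Z] {s : Z → ℕ → ℝ} (hs : ∀ z, Small (s z))
    (hc : Continuous s) (m : M) : Continuous fun z => fM fr P c (s z) m := by
  by_cases h : m ∈ c.j '' ball 0 2
  · obtain ⟨ξ, hξ, rfl⟩ := h
    have h1 : (fun z => fM fr P c (s z) (c.j ξ)) = fun z => c.j (mapF fr P (s z) ξ) := by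
      funext z
      exact ext_j c hξ
    rw [h1]
    refine c.cont_j.comp_continuous ?_ fun z => (adm_mapF fr P (hs z)).ball ξ hξ
    have h2 : Continuous fun z => phi fr P (s z) ξ := (continuous_phi_param fr P ξ).comp hc
    exact continuous_const.add (h2.smul continuous_const)
  · have h1 : (fun z => fM fr P c (s z) m) = fun _ => m := by
      funext z
      exact ext_not c h
    rw [h1]
    exact continuous_const

/-- Summable perturbations give conjugate maps. -/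
theorem exists_conj {s s' : ℕ → ℝ} (hs : Small s) (hs' : Small s')
    (hsum : Summable fun i => |s' i - s i|) :
    ∃ h : M ≃ₜ M, ∀ m, h (fM fr P c s m) = fM fr P c s' (h m) := by
  have hδ : ∀ i, |(fun i => s' i - s i) i| ≤ 1 / 4 := by
    intro i
    have h1 := abs_le.1 (hs i)
    have h2 := abs_le.1 (hs' i)
    show |s' i - s i| ≤ 1 / 4
    rw [abs_le]
    constructor <;> linarith [h1.1, h1.2, h2.1, h2.2]
  obtain ⟨h, hh⟩ := exists_homeo c (F := hmap fr (fun i => s' i - s i)) (continuous_hmap fr hsum)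
    ⟨hmap_injective fr hδ, hmap_surjective fr hδ⟩ fun ξ hξ => hmap_of_norm_ge fr hξ
  refine ⟨h, fun m => ?_⟩
  have hadm : Adm (hmap fr (fun i => s' i - s i)) := by
    refine adm_of_equiv (Equiv.ofBijective (hmap fr (fun i => s' i - s i))
      ⟨hmap_injective fr hδ, hmap_surjective fr hδ⟩) fun ξ hξ => hmap_of_norm_ge fr hξ
  rw [hh, hh]
  unfold fM
  rw [ext_comp c (adm_mapF fr P hs), ext_comp c hadm]
  have : (fun ξ => hmap fr (fun i => s' i - s i) (mapF fr P s ξ)) =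
      fun ξ => mapF fr P s' (hmap fr (fun i => s' i - s i) ξ) := by
    funext ξ
    exact hmap_conj fr P hs hs' ξ
  rw [this]

/-- The balls in the manifold. -/
def DM (s : ℕ → ℝ) (i : ℕ) : Set M := c.j '' ball (ctr fr i (s i)) (rad i)

/-- The points all of whose punctured neighbourhoods are small enough to be moved. -/
def OO (f : M → M) : Set M := {m | ∀ᶠ m' in 𝓝[≠] m, f m' ≠ m'}

variable {s s' : ℕ → ℝ}

theorem ball_sub (hs : Small s) (i : ℕ) : ball (ctr fr i (s i)) (rad i) ⊆ ball (0 : E) 2 := by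
  intro x hx
  have := norm_lt_of_mem_ball fr (hs i) hx
  rw [mem_ball_zero_iff]
  linarith

theorem isOpen_DM (hs : Small s) (i : ℕ) : IsOpen (DM fr c s i) :=
  c.isOpen_image isOpen_ball (ball_sub fr hs i)

theorem isPreconnected_DM (hs : Small s) (i : ℕ) : IsPreconnected (DM fr c s i) :=
  ((convex_ball _ _).isPreconnected).image _ (c.cont_j.mono (ball_sub fr hs i))

theorem DM_nonempty (i : ℕ) : (DM fr c s i).Nonempty :=
  ⟨c.j (ctr fr i (s i)), _, mem_ball_self (rad_pos i), rfl⟩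

theorem DM_unique (hs : Small s) {i k : ℕ} {m : M} (h : m ∈ DM fr c s i) (h' : m ∈ DM fr c s k) :
    i = k := by
  obtain ⟨x, hx, rfl⟩ := h
  obtain ⟨y, hy, hxy⟩ := h'
  have h1 := c.inj (ball_sub fr hs k hy) (ball_sub fr hs i hx) hxy
  subst h1
  exact band_unique fr (mem_band_of_mem_ball fr hx) (mem_band_of_mem_ball fr hy)

theorem fM_ne_iff (hs : Small s) {m : M} : fM fr P c s m ≠ m ↔
    ∃ i, m ∈ DM fr c s i ∧ m ∉ c.j '' ((fun ξ => ξ + ctr fr i (s i)) '' P.A i) := by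
  by_cases h : m ∈ c.j '' ball 0 2
  · obtain ⟨ξ, hξ, rfl⟩ := h
    have h1 : fM fr P c s (c.j ξ) = c.j (mapF fr P s ξ) := ext_j c hξ
    rw [h1]
    have h2 : c.j (mapF fr P s ξ) ≠ c.j ξ ↔ mapF fr P s ξ ≠ ξ :=
      not_congr (c.inj.eq_iff ((adm_mapF fr P hs).ball ξ hξ) hξ)
    rw [h2, Ne, mapF_eq_self_iff, ← Ne, phi_ne_zero_iff]
    refine exists_congr fun i => ?_
    have h3 : c.j ξ ∈ DM fr c s i ↔ ξ ∈ ball (ctr fr i (s i)) (rad i) := by
      constructor
      · rintro ⟨η, hη, he⟩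
        rw [← c.inj (ball_sub fr hs i hη) hξ he]
        exact hη
      · exact fun h => ⟨ξ, h, rfl⟩
    have h4 : c.j ξ ∈ c.j '' ((fun ξ => ξ + ctr fr i (s i)) '' P.A i) ↔
        ξ - ctr fr i (s i) ∈ P.A i := by
      constructor
      · rintro ⟨_, ⟨a, ha, rfl⟩, he⟩
        have h5 : a + ctr fr i (s i) ∈ ball (0 : E) 2 := by
          apply ball_sub fr hs i
          rw [mem_ball_iff_norm, add_sub_cancel_right, ← mem_ball_zero_iff]
          exact P.sub i ha
        rw [← c.inj h5 hξ he, add_sub_cancel_right]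
        exact ha
      · intro h
        exact ⟨ξ, ⟨_, h, by simp⟩, rfl⟩
    rw [h3, h4]
  · have h1 : fM fr P c s m = m := ext_not c h
    constructor
    · exact fun h2 => absurd h1 h2
    · rintro ⟨i, ⟨ξ, hξ, rfl⟩, -⟩
      exact absurd ⟨ξ, ball_sub fr hs i hξ, rfl⟩ h

theorem finite_Z (i : ℕ) : (c.j '' ((fun ξ => ξ + ctr fr i (s i)) '' P.A i)).Finite :=
  ((P.fin i).image _).image _

theorem fM_eq_self_of_notMem (hs : Small s) {m : M} (h : ∀ i, m ∉ DM fr c s i) :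
    fM fr P c s m = m := by
  by_contra hne
  obtain ⟨i, hi, -⟩ := (fM_ne_iff fr P c hs).1 hne
  exact h i hi

theorem DM_sub_OO (hs : Small s) (i : ℕ) : DM fr c s i ⊆ OO (fM fr P c s) := by
  intro m hm
  show ∀ᶠ m' in 𝓝[≠] m, fM fr P c s m' ≠ m'
  have h1 : ∀ᶠ m' in 𝓝[≠] m, m' ∈ DM fr c s i :=
    mem_nhdsWithin_of_mem_nhds ((isOpen_DM fr c hs i).mem_nhds hm)
  have h2 : ∀ᶠ m' in 𝓝[≠] m, m' ∉ c.j '' ((fun ξ => ξ + ctr fr i (s i)) '' P.A i) := by
    have hfin := (finite_Z fr P c (s := s) i).subset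
      (sdiff_subset (s := c.j '' ((fun ξ => ξ + ctr fr i (s i)) '' P.A i)) (t := {m}))
    have h3 := hfin.isClosed.isOpen_compl.mem_nhds (x := m) (by simp)
    filter_upwards [mem_nhdsWithin_of_mem_nhds h3, self_mem_nhdsWithin] with x hx hxm hx2
    exact hx ⟨hx2, hxm⟩
  filter_upwards [h1, h2] with x hx1 hx2
  exact (fM_ne_iff fr P c hs).2 ⟨i, hx1, hx2⟩

include fr in
theorem nontrivial_E : Nontrivial E := by
  refine ⟨⟨fr.e0, 0, fun h => ?_⟩⟩
  have := fr.n0
  rw [h] at this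
  simp at this

include fr in
theorem neBot_punctured (m : M) : (𝓝[≠] m).NeBot := by
  have := nontrivial_E fr
  by_contra hcon
  rw [not_neBot] at hcon
  have h1 : IsOpen ({m} : Set M) := (isOpen_singleton_iff_punctured_nhds m).2 hcon
  let φ := chartAt E m
  have h2 : IsOpen (φ '' {m}) := by
    refine φ.isOpen_image_of_subset_source h1 ?_
    rw [singleton_subset_iff]
    exact mem_chart_source E m
  rw [image_singleton] at h2
  have h3 : 𝓝[≠] (φ m) = ⊥ := by
    rw [← isOpen_singleton_iff_punctured_nhds]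
    exact h2
  exact (NeBot.ne (inferInstance : (𝓝[≠] (φ m)).NeBot)) h3

theorem OO_sub (hs : Small s) : OO (fM fr P c s) ⊆ ⋃ i, DM fr c s i := by
  intro m hm
  have hm' : ∀ᶠ m' in 𝓝[≠] m, fM fr P c s m' ≠ m' := hm
  by_contra hcon
  rw [mem_iUnion, not_exists] at hcon
  by_cases h : m ∈ c.j '' ball 0 2
  · obtain ⟨ξ, hξ, rfl⟩ := h
    have hξn : ∀ i, ξ ∉ ball (ctr fr i (s i)) (rad i) := fun i hi => hcon i ⟨ξ, hi, rfl⟩
    -- the direction
    obtain ⟨σ, hσ, hdir⟩ : ∃ σ : ℝ, |σ| = 1 ∧ ∀ τ : ℝ, 0 < τ → ∀ i,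
        ξ + (τ * σ) • fr.e0 ∉ ball (ctr fr i (s i)) (rad i) := by
      by_cases hb : ∃ i, ξ ∈ band fr i
      · obtain ⟨i, hi⟩ := hb
        have key : ∀ σ : ℝ, 0 ≤ σ * ⟪ξ - ctr fr i (s i), fr.e0⟫ → ∀ τ : ℝ, 0 < τ → ∀ k,
            ξ + (τ * σ) • fr.e0 ∉ ball (ctr fr k (s k)) (rad k) := by
          intro σ hσ τ hτ k hk
          have h1 : ξ + (τ * σ) • fr.e0 ∈ band fr i := by
            show |⟪fr.e1, ξ + _⟫ - _| < _
            rw [inner_add_e0]
            exact hi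
          have h2 := band_unique fr (mem_band_of_mem_ball fr hk) h1
          subst h2
          apply hξn k
          rw [mem_ball_iff_norm] at hk ⊢
          refine lt_of_le_of_lt ?_ hk
          have h3 : ξ + (τ * σ) • fr.e0 - ctr fr k (s k) =
              (ξ - ctr fr k (s k)) + (τ * σ) • fr.e0 := by abel
          rw [h3]
          have h4 := norm_add_sq_real (ξ - ctr fr k (s k)) ((τ * σ) • fr.e0)
          rw [inner_smul_right] at h4
          have h5 : 0 ≤ τ * σ * ⟪ξ - ctr fr k (s k), fr.e0⟫ := by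
            rw [mul_assoc]
            exact mul_nonneg hτ.le hσ
          have h6 := sq_nonneg ‖(τ * σ) • fr.e0‖
          refine le_of_sq_le_sq ?_ (norm_nonneg _)
          linarith
        rcases le_total 0 ⟪ξ - ctr fr i (s i), fr.e0⟫ with hle | hle
        · exact ⟨1, abs_one, key 1 (by simpa using hle)⟩
        · exact ⟨-1, by simp, key (-1) (by linarith)⟩
      · push Not at hb
        refine ⟨1, abs_one, fun τ _ i hi => hb i ?_⟩
        have h1 := mem_band_of_mem_ball fr hi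
        have h2 : |⟪fr.e1, ξ + (τ * 1) • fr.e0⟫ - lev i| < 2 * rad i := h1
        rw [inner_add_e0] at h2
        exact h2
    have hcur : Tendsto (fun τ : ℝ => ξ + (τ * σ) • fr.e0) (𝓝[>] 0) (𝓝 ξ) := by
      have hc : Continuous fun τ : ℝ => ξ + (τ * σ) • fr.e0 := by fun_prop
      have := hc.tendsto 0
      simp only [zero_mul, zero_smul, add_zero] at this
      exact this.mono_left nhdsWithin_le_nhds
    have hin : ∀ᶠ τ : ℝ in 𝓝[>] 0, ξ + (τ * σ) • fr.e0 ∈ ball (0 : E) 2 :=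
      hcur.eventually (isOpen_ball.mem_nhds hξ)
    have hpos : ∀ᶠ τ : ℝ in 𝓝[>] 0, 0 < τ := self_mem_nhdsWithin
    have hne : ∀ᶠ τ : ℝ in 𝓝[>] 0, c.j (ξ + (τ * σ) • fr.e0) ≠ c.j ξ := by
      filter_upwards [hin, hpos] with τ h1 h2 h3
      have h4 := c.inj h1 hξ h3
      rw [add_eq_left, smul_eq_zero] at h4
      rcases h4 with h4 | h4
      · rcases mul_eq_zero.1 h4 with h5 | h5
        · exact h2.ne' h5
        · rw [h5] at hσ
          simp at hσ
      · have := fr.n0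
        rw [h4] at this
        simp at this
    have htend : Tendsto (fun τ : ℝ => c.j (ξ + (τ * σ) • fr.e0)) (𝓝[>] 0) (𝓝[≠] (c.j ξ)) := by
      rw [tendsto_nhdsWithin_iff]
      refine ⟨?_, hne⟩
      exact (c.cont_j.continuousAt (isOpen_ball.mem_nhds hξ)).tendsto.comp hcur
    obtain ⟨τ, h1, h2, h3⟩ := ((htend.eventually hm').and (hin.and hpos)).exists
    apply h1
    apply fM_eq_self_of_notMem fr P c hs
    rintro i ⟨η, hη, he⟩
    rw [c.inj (ball_sub fr hs i hη) h2 he] at hη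
    exact hdir τ h3 i hη
  · have hcl : IsClosed (c.j '' closedBall 0 (3 / 2)) := (c.isCompact (by norm_num)).isClosed
    have h3 : m ∉ c.j '' closedBall 0 (3 / 2) := fun h' =>
      h (image_mono (UC.closedBall_sub (by norm_num)) h')
    have h4 : ∀ᶠ m' in 𝓝[≠] m, m' ∉ c.j '' closedBall 0 (3 / 2) :=
      mem_nhdsWithin_of_mem_nhds (hcl.isOpen_compl.mem_nhds h3)
    have := neBot_punctured fr m
    obtain ⟨m', h5, h6⟩ := (hm'.and h4).exists
    exact h5 (ext_j_id c (fun ξ hξ => mapF_out fr P hs hξ) h6)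

theorem OO_eq (hs : Small s) : OO (fM fr P c s) = ⋃ i, DM fr c s i :=
  Subset.antisymm (OO_sub fr P c hs) (iUnion_subset fun i => DM_sub_OO fr P c hs i)

theorem OO_conj {f f' : M → M} {h : M ≃ₜ M} (hh : ∀ m, h (f m) = f' (h m)) {m : M}
    (hm : m ∈ OO f) : h m ∈ OO f' := by
  show ∀ᶠ m' in 𝓝[≠] (h m), f' m' ≠ m'
  rw [← h.map_punctured_nhds_eq, Filter.eventually_map]
  have hm' : ∀ᶠ m' in 𝓝[≠] m, f m' ≠ m' := hm
  refine hm'.mono fun x hx hx2 => hx ?_
  apply h.injective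
  rw [hh, hx2]

theorem exists_sub_DM (hs : Small s) {S : Set M} (hS : IsPreconnected S) (hSn : S.Nonempty)
    (hsub : S ⊆ ⋃ i, DM fr c s i) : ∃ k, S ⊆ DM fr c s k := by
  obtain ⟨x, hx⟩ := hSn
  obtain ⟨k, hk⟩ := mem_iUnion.1 (hsub hx)
  refine ⟨k, ?_⟩
  refine hS.subset_left_of_subset_union (isOpen_DM fr c hs k)
    (v := ⋃ (l : ℕ) (_ : l ≠ k), DM fr c s l)
    (isOpen_iUnion fun l => isOpen_iUnion fun _ => isOpen_DM fr c hs l) ?_ ?_ ⟨x, hx, hk⟩
  · rw [Set.disjoint_left]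
    intro y hy hy'
    obtain ⟨l, hl, hyl⟩ := mem_iUnion₂.1 hy'
    exact hl (DM_unique fr c hs hyl hy)
  · intro y hy
    obtain ⟨l, hl⟩ := mem_iUnion.1 (hsub hy)
    by_cases hlk : l = k
    · subst hlk
      exact Or.inl hl
    · exact Or.inr (mem_iUnion₂.2 ⟨l, hlk, hl⟩)

theorem ncard_fix (hs : Small s) (i : ℕ) :
    {m | m ∈ DM fr c s i ∧ fM fr P c s m = m}.ncard = i := by
  have h : {m | m ∈ DM fr c s i ∧ fM fr P c s m = m} =
      c.j '' ((fun ξ => ξ + ctr fr i (s i)) '' P.A i) := by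
    ext m
    constructor
    · rintro ⟨h1, h2⟩
      by_contra h3
      exact (fM_ne_iff fr P c hs).2 ⟨i, h1, h3⟩ h2
    · rintro ⟨_, ⟨a, ha, rfl⟩, rfl⟩
      have h1 : a + ctr fr i (s i) ∈ ball (ctr fr i (s i)) (rad i) := by
        rw [mem_ball_iff_norm, add_sub_cancel_right, ← mem_ball_zero_iff]
        exact P.sub i ha
      have h2 : c.j (a + ctr fr i (s i)) ∈ DM fr c s i := ⟨_, h1, rfl⟩
      refine ⟨h2, ?_⟩
      by_contra hne
      obtain ⟨k, hk, hk'⟩ := (fM_ne_iff fr P c hs).1 hne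
      have := DM_unique fr c hs h2 hk
      subst this
      exact hk' ⟨_, ⟨a, ha, rfl⟩, rfl⟩
  rw [h, image_image, Set.InjOn.ncard_image, P.card]
  intro a ha b hb hab
  have h1 : ∀ a ∈ P.A i, a + ctr fr i (s i) ∈ ball (0 : E) 2 := by
    intro a ha
    apply ball_sub fr hs i
    rw [mem_ball_iff_norm, add_sub_cancel_right, ← mem_ball_zero_iff]
    exact P.sub i ha
  exact add_right_cancel (c.inj (h1 a ha) (h1 b hb) hab)

/-- A conjugacy preserves the indices of the balls. -/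
theorem conj_DM (hs : Small s) (hs' : Small s') {h : M ≃ₜ M}
    (hh : ∀ m, h (fM fr P c s m) = fM fr P c s' (h m)) (i : ℕ) {m : M} (hm : m ∈ DM fr c s i) :
    h m ∈ DM fr c s' i := by
  have hh' : ∀ m, h.symm (fM fr P c s' m) = fM fr P c s (h.symm m) := by
    intro m
    apply h.injective
    rw [hh, h.apply_symm_apply, h.apply_symm_apply]
  have key : ∀ {s s' : ℕ → ℝ} (_ : Small s) (_ : Small s') {h : M ≃ₜ M}
      (_ : ∀ m, h (fM fr P c s m) = fM fr P c s' (h m)) (i : ℕ),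
      ∃ k, h '' DM fr c s i ⊆ DM fr c s' k := by
    intro s s' hs hs' h hh i
    refine exists_sub_DM fr c hs' ((isPreconnected_DM fr c hs i).image _ h.continuous.continuousOn)
      ((DM_nonempty fr c i).image _) ?_
    rintro _ ⟨x, hx, rfl⟩
    rw [← OO_eq fr P c hs']
    exact OO_conj hh (DM_sub_OO fr P c hs i hx)
  obtain ⟨k, hk⟩ := key hs hs' hh i
  obtain ⟨l, hl⟩ := key hs' hs hh' k
  have hil : i = l := by
    obtain ⟨x, hx⟩ := DM_nonempty fr c (s := s) i
    have h1 := hl ⟨h x, hk ⟨x, hx, rfl⟩, h.symm_apply_apply x⟩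
    exact DM_unique fr c hs hx h1
  subst hil
  have himg : h '' {m | m ∈ DM fr c s i ∧ fM fr P c s m = m} =
      {m | m ∈ DM fr c s' k ∧ fM fr P c s' m = m} := by
    ext x
    constructor
    · rintro ⟨y, ⟨hy1, hy2⟩, rfl⟩
      refine ⟨hk ⟨y, hy1, rfl⟩, ?_⟩
      rw [← hh, hy2]
    · rintro ⟨hx1, hx2⟩
      refine ⟨h.symm x, ⟨hl ⟨x, hx1, rfl⟩, ?_⟩, h.apply_symm_apply x⟩
      rw [← hh', hx2]
  have hcard := congrArg Set.ncard himg
  rw [Set.ncard_image_of_injective _ h.injective, ncard_fix fr P c hs, ncard_fix fr P c hs']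
    at hcard
  subst hcard
  exact hk ⟨m, hm, rfl⟩

/-- A conjugacy preserves convergence of subsequences of positions. -/
theorem conj_tendsto (hs : Small s) (hs' : Small s') {h : M ≃ₜ M}
    (hh : ∀ m, h (fM fr P c s m) = fM fr P c s' (h m)) {φ : ℕ → ℕ} (hφ : Tendsto φ atTop atTop)
    {a : ℝ} (ha : Tendsto (fun l => s (φ l)) atTop (𝓝 a)) :
    ∃ b, Tendsto (fun l => s' (φ l)) atTop (𝓝 b) := by
  have ha8 : |a| ≤ 1 / 8 := le_of_tendsto ha.abs (Eventually.of_forall fun l => hs (φ l))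
  have hpa : a • fr.e0 ∈ ball (0 : E) 2 := by
    rw [mem_ball_zero_iff, norm_smul, fr.n0, mul_one, Real.norm_eq_abs]
    linarith
  have h1 : Tendsto (fun l => ctr fr (φ l) (s (φ l))) atTop (𝓝 (a • fr.e0)) := by
    have h2 : Tendsto (fun l => s (φ l) • fr.e0 + lev (φ l) • fr.e1) atTop
        (𝓝 (a • fr.e0 + (0 : ℝ) • fr.e1)) :=
      (ha.smul_const _).add ((tendsto_lev.comp hφ).smul_const _)
    rw [zero_smul, add_zero] at h2
    exact h2
  have h3 : Tendsto (fun l => h (c.j (ctr fr (φ l) (s (φ l))))) atTop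
      (𝓝 (h (c.j (a • fr.e0)))) :=
    (h.continuous.tendsto _).comp
      ((c.cont_j.continuousAt (isOpen_ball.mem_nhds hpa)).tendsto.comp h1)
  have h4 : ∀ l, ∃ η ∈ ball (ctr fr (φ l) (s' (φ l))) (rad (φ l)),
      c.j η = h (c.j (ctr fr (φ l) (s (φ l)))) := by
    intro l
    exact conj_DM fr P c hs hs' hh (φ l) ⟨_, mem_ball_self (rad_pos _), rfl⟩
  choose η hη hjη using h4
  have h5 : h (c.j (a • fr.e0)) ∈ c.j '' closedBall 0 (1 / 2) := by
    refine (c.isCompact (r := 1 / 2) (by norm_num)).isClosed.mem_of_tendsto h3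
      (Eventually.of_forall fun l => ?_)
    rw [← hjη l]
    exact ⟨η l, mem_closedBall_zero_iff.2 (norm_lt_of_mem_ball fr (hs' _) (hη l)).le, rfl⟩
  obtain ⟨ζ, hζ, hjζ⟩ := h5
  have hζ2 : ζ ∈ ball (0 : E) 2 := UC.closedBall_sub (by norm_num) hζ
  have h6 : Tendsto η atTop (𝓝 ζ) := by
    have h7 : ContinuousAt c.κ (h (c.j (a • fr.e0))) := by
      refine c.cont_κ.continuousAt (c.openU.mem_nhds ?_)
      rw [← hjζ]
      exact ⟨ζ, hζ2, rfl⟩
    have h8 := h7.tendsto.comp h3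
    rw [← hjζ, c.left ζ hζ2] at h8
    refine h8.congr fun l => ?_
    show c.κ (h (c.j (ctr fr (φ l) (s (φ l))))) = η l
    rw [← hjη l, c.left _ (ball_sub fr hs' _ (hη l))]
  refine ⟨⟪fr.e0, ζ⟫, ?_⟩
  have h9 : Tendsto (fun l => ⟪fr.e0, η l⟫) atTop (𝓝 ⟪fr.e0, ζ⟫) := by
    have hc : Continuous fun x : E => ⟪fr.e0, x⟫ := by fun_prop
    exact (hc.tendsto ζ).comp h6
  have h10 : Tendsto (fun l => ⟪fr.e0, η l⟫ - s' (φ l)) atTop (𝓝 0) := by
    refine squeeze_zero_norm (fun l => ?_) (tendsto_rad.comp hφ)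
    rw [Real.norm_eq_abs]
    exact (abs_inner0_lt_of_mem_ball fr (hη l)).le
  have h11 := h9.sub h10
  rw [sub_zero] at h11
  exact h11.congr fun l => by ring

end Pool.Agent.Lib.P9aeaaa
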