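import Mathlib

/-!
# The model diffeomorphisms of a Euclidean space
-/

set_option linter.unusedSectionVars false

namespace Pool.Agent.Lib.P9aeaaa

open Set Filter Topology Metric
open scoped RealInnerProductSpace ContDiff NNReal

/-- Heights of the balls. -/
noncomputable def lev (i : ℕ) : ℝ := (1 / 2) ^ (i + 2)

/-- Radii of the balls. -/
noncomputable def rad (i : ℕ) : ℝ := (1 / 2) ^ (i + 5)

theorem rad_pos (i : ℕ) : 0 < rad i := by
  unfold rad
  positivity

theorem lev_pos (i : ℕ) : 0 < lev i := by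
  unfold lev
  positivity

theorem lev_eq (i : ℕ) : lev i = 8 * rad i := by
  unfold lev rad
  rw [pow_add, pow_add]
  norm_num
  ring

theorem lev_le (i : ℕ) : lev i ≤ 1 / 4 := by
  unfold lev
  rw [pow_add]
  have : (1 / 2 : ℝ) ^ i ≤ 1 := pow_le_one₀ (by norm_num) (by norm_num)
  norm_num
  linarith

theorem rad_le (i : ℕ) : rad i ≤ 1 / 32 := by
  have := lev_le i
  rw [lev_eq] at this
  linarith

theorem lev_lt {i j : ℕ} (h : i < j) : lev j ≤ lev i / 2 := by
  unfold lev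
  have h1 : (1 / 2 : ℝ) ^ (j + 2) ≤ (1 / 2) ^ (i + 2 + 1) :=
    pow_le_pow_of_le_one (by norm_num) (by norm_num) (by omega)
  rw [pow_succ (1 / 2 : ℝ) (i + 2)] at h1
  linarith

theorem tendsto_lev : Tendsto lev atTop (𝓝 0) := by
  have h := tendsto_pow_atTop_nhds_zero_of_lt_one (r := (1 / 2 : ℝ)) (by norm_num) (by norm_num)
  exact (tendsto_add_atTop_iff_nat 2).2 h

theorem tendsto_rad : Tendsto rad atTop (𝓝 0) := by
  have h := tendsto_pow_atTop_nhds_zero_of_lt_one (r := (1 / 2 : ℝ)) (by norm_num) (by norm_num)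
  exact (tendsto_add_atTop_iff_nat 5).2 h

theorem summable_half (c : ℕ) : Summable fun i : ℕ => (1 / 2 : ℝ) ^ (i + c) := by
  have h := summable_geometric_of_lt_one (r := (1 / 2 : ℝ)) (by norm_num) (by norm_num)
  exact (summable_nat_add_iff c).2 h

theorem tsum_half : ∑' i : ℕ, (1 / 2 : ℝ) ^ (i + 2) = 1 / 2 := by
  have h := tsum_geometric_of_lt_one (r := (1 / 2 : ℝ)) (by norm_num) (by norm_num)
  have h2 : ∀ i : ℕ, (1 / 2 : ℝ) ^ (i + 2) = (1 / 2) ^ i * (1 / 4) := by
    intro i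
    rw [pow_add]
    norm_num
  simp_rw [h2]
  rw [tsum_mul_right, h]
  norm_num

variable {E : Type*} [NormedAddCommGroup E] [InnerProductSpace ℝ E] [FiniteDimensional ℝ E]

/-- The profiles. -/
structure Prof (E : Type*) [NormedAddCommGroup E] [InnerProductSpace ℝ E] where
  f : ℕ → E → ℝ
  A : ℕ → Set E
  smooth : ∀ i, ContDiff ℝ ∞ (f i)
  sub : ∀ i, A i ⊆ ball 0 (rad i)
  fin : ∀ i, (A i).Finite
  card : ∀ i, (A i).ncard = i
  supp : ∀ i, Function.support (f i) = ball 0 (rad i) \ A i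
  bound : ∀ i, ∀ k ≤ i + 1, ∀ x, ‖iteratedFDeriv ℝ k (f i) x‖ ≤ (1 / 2) ^ (i + 2)

theorem exists_profile [Nontrivial E] (i : ℕ) : ∃ (f : E → ℝ) (A : Set E), ContDiff ℝ ∞ f ∧
    A ⊆ ball 0 (rad i) ∧ A.Finite ∧ A.ncard = i ∧ Function.support f = ball 0 (rad i) \ A ∧
    ∀ k ≤ i + 1, ∀ x, ‖iteratedFDeriv ℝ k f x‖ ≤ (1 / 2) ^ (i + 2) := by
  have hinf : (ball (0 : E) (rad i)).Infinite :=
    infinite_of_mem_nhds 0 (ball_mem_nhds 0 (rad_pos i))
  obtain ⟨A, hA, hAf, hAc⟩ := hinf.exists_subset_ncard_eq i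
  have hopen : IsOpen (ball (0 : E) (rad i) \ A) := isOpen_ball.sdiff hAf.isClosed
  obtain ⟨f, hfs, hf, -⟩ := hopen.exists_contDiff_support_eq (n := ⊤)
  have hcs : HasCompactSupport f := by
    refine HasCompactSupport.of_support_subset_isCompact (isCompact_closedBall 0 (rad i)) ?_
    rw [hfs]
    exact sdiff_subset.trans ball_subset_closedBall
  have hb : ∀ k : ℕ, ∃ C, ∀ x, ‖iteratedFDeriv ℝ k f x‖ ≤ C := by
    intro k
    refine Continuous.bounded_above_of_compact_support ?_ (hcs.iteratedFDeriv k)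
    exact hf.continuous_iteratedFDeriv (by exact_mod_cast le_top)
  choose C hC using hb
  have hC0 : ∀ k, 0 ≤ C k := fun k => (norm_nonneg _).trans (hC k 0)
  let S : ℝ := ∑ k ∈ Finset.range (i + 2), C k + 1
  have hS : 0 < S := by
    have : 0 ≤ ∑ k ∈ Finset.range (i + 2), C k := Finset.sum_nonneg fun k _ => hC0 k
    linarith
  have hCS : ∀ k ≤ i + 1, C k ≤ S := by
    intro k hk
    have := Finset.single_le_sum (fun k _ => hC0 k) (Finset.mem_range.2 (by omega : k < i + 2))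
    linarith
  let c : ℝ := (1 / 2) ^ (i + 2) / S
  have hc : 0 < c := by positivity
  refine ⟨c • f, A, contDiff_const.smul hf, hA, hAf, hAc, ?_, ?_⟩
  · rw [← hfs]
    ext x
    simp [hc.ne']
  · intro k hk x
    rw [iteratedFDeriv_const_smul_apply]
    · rw [norm_smul, Real.norm_of_nonneg hc.le]
      calc c * ‖iteratedFDeriv ℝ k f x‖ ≤ c * S := by
            gcongr
            exact (hC k x).trans (hCS k hk)
        _ = (1 / 2) ^ (i + 2) := div_mul_cancel₀ _ hS.ne'
    · exact (hf.of_le (by exact_mod_cast le_top)).contDiffAt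

theorem exists_prof [Nontrivial E] : Nonempty (Prof E) := by
  choose f A h1 h2 h3 h4 h5 h6 using exists_profile (E := E)
  exact ⟨⟨f, A, h1, h2, h3, h4, h5, h6⟩⟩

/-- Two orthonormal vectors. -/
structure Frame (E : Type*) [NormedAddCommGroup E] [InnerProductSpace ℝ E] where
  e0 : E
  e1 : E
  n0 : ‖e0‖ = 1
  n1 : ‖e1‖ = 1
  orth : ⟪e1, e0⟫ = 0

variable (fr : Frame E) (P : Prof E)

/-- The centre of the `i`-th ball. -/
noncomputable def ctr (i : ℕ) (τ : ℝ) : E := τ • fr.e0 + lev i • fr.e1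

/-- The horizontal band of index `i`. -/
def band (i : ℕ) : Set E := {x | |⟪fr.e1, x⟫ - lev i| < 2 * rad i}

theorem inner_ctr (i : ℕ) (τ : ℝ) : ⟪fr.e1, ctr fr i τ⟫ = lev i := by
  unfold ctr
  rw [inner_add_right, inner_smul_right, inner_smul_right, fr.orth, real_inner_self_eq_norm_sq,
    fr.n1]
  ring

theorem inner_ctr0 (i : ℕ) (τ : ℝ) : ⟪fr.e0, ctr fr i τ⟫ = τ := by
  unfold ctr
  rw [inner_add_right, inner_smul_right, inner_smul_right, real_inner_comm fr.e1 fr.e0, fr.orth,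
    real_inner_self_eq_norm_sq, fr.n0]
  ring

theorem inner_add_e0 (x : E) (a : ℝ) : ⟪fr.e1, x + a • fr.e0⟫ = ⟪fr.e1, x⟫ := by
  rw [inner_add_right, inner_smul_right, fr.orth]
  ring

theorem band_unique {i j : ℕ} {x : E} (hi : x ∈ band fr i) (hj : x ∈ band fr j) : i = j := by
  by_contra hne
  have key : ∀ {i j : ℕ}, i < j → x ∈ band fr i → x ∈ band fr j → False := by
    intro i j hij hi hj
    have h1 := lev_lt hij
    have h2 := lev_eq i
    have h3 := lev_eq j
    have h4 := lev_pos i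
    have hi' : |⟪fr.e1, x⟫ - lev i| < 2 * rad i := hi
    have hj' : |⟪fr.e1, x⟫ - lev j| < 2 * rad j := hj
    have h5 := (abs_lt.1 hi').1
    have h6 := (abs_lt.1 hj').2
    linarith
  rcases lt_or_gt_of_ne hne with h | h
  · exact key h hi hj
  · exact key h hj hi

theorem mem_band_of_mem_ball {i : ℕ} {τ : ℝ} {x : E} (h : x ∈ ball (ctr fr i τ) (rad i)) :
    x ∈ band fr i := by
  have h1 : ⟪fr.e1, x⟫ - lev i = ⟪fr.e1, x - ctr fr i τ⟫ := by
    rw [inner_sub_right, inner_ctr]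
  show |⟪fr.e1, x⟫ - lev i| < 2 * rad i
  rw [h1]
  have h2 := abs_real_inner_le_norm fr.e1 (x - ctr fr i τ)
  rw [fr.n1, one_mul] at h2
  rw [mem_ball_iff_norm] at h
  have := rad_pos i
  linarith

theorem abs_inner_lt_of_mem_ball {i : ℕ} {τ : ℝ} {x : E} (h : x ∈ ball (ctr fr i τ) (rad i)) :
    |⟪fr.e1, x⟫ - lev i| < rad i := by
  have h1 : ⟪fr.e1, x⟫ - lev i = ⟪fr.e1, x - ctr fr i τ⟫ := by
    rw [inner_sub_right, inner_ctr]
  rw [h1]
  have h2 := abs_real_inner_le_norm fr.e1 (x - ctr fr i τ)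
  rw [fr.n1, one_mul] at h2
  rw [mem_ball_iff_norm] at h
  linarith

theorem abs_inner0_lt_of_mem_ball {i : ℕ} {τ : ℝ} {x : E} (h : x ∈ ball (ctr fr i τ) (rad i)) :
    |⟪fr.e0, x⟫ - τ| < rad i := by
  have h1 : ⟪fr.e0, x⟫ - τ = ⟪fr.e0, x - ctr fr i τ⟫ := by
    rw [inner_sub_right, inner_ctr0]
  rw [h1]
  have h2 := abs_real_inner_le_norm fr.e0 (x - ctr fr i τ)
  rw [fr.n0, one_mul] at h2
  rw [mem_ball_iff_norm] at h
  linarith

/-- The displacement function. -/
noncomputable def phi (s : ℕ → ℝ) (x : E) : ℝ := ∑' i, P.f i (x - ctr fr i (s i))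

theorem Prof.ne_zero_iff {i : ℕ} {x : E} : P.f i x ≠ 0 ↔ x ∈ ball (0 : E) (rad i) ∧ x ∉ P.A i := by
  have h := P.supp i
  rw [Set.ext_iff] at h
  exact h x

theorem f_eq_zero {i : ℕ} {s : ℝ} {x : E} (h : x ∉ ball (ctr fr i s) (rad i)) :
    P.f i (x - ctr fr i s) = 0 := by
  by_contra hne
  apply h
  have := (P.ne_zero_iff.1 hne).1
  rw [mem_ball_zero_iff] at this
  rw [mem_ball_iff_norm]
  exact this

theorem phi_band {s : ℕ → ℝ} {i : ℕ} {x : E} (h : x ∈ band fr i) :
    phi fr P s x = P.f i (x - ctr fr i (s i)) := by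
  unfold phi
  refine tsum_eq_single i fun j hj => ?_
  apply f_eq_zero
  intro hx
  exact hj (band_unique fr (mem_band_of_mem_ball fr hx) h)

theorem phi_not_band {s : ℕ → ℝ} {x : E} (h : ∀ i, x ∉ band fr i) : phi fr P s x = 0 := by
  unfold phi
  have : ∀ i, P.f i (x - ctr fr i (s i)) = 0 := fun i =>
    f_eq_zero fr P fun hx => h i (mem_band_of_mem_ball fr hx)
  simp [this]

theorem phi_ne_zero_iff {s : ℕ → ℝ} {x : E} :
    phi fr P s x ≠ 0 ↔ ∃ i, x ∈ ball (ctr fr i (s i)) (rad i) ∧ x - ctr fr i (s i) ∉ P.A i := by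
  constructor
  · intro h
    by_cases hb : ∃ i, x ∈ band fr i
    · obtain ⟨i, hi⟩ := hb
      rw [phi_band fr P hi] at h
      have h1 := P.ne_zero_iff.1 h
      rw [mem_ball_zero_iff] at h1
      exact ⟨i, by rw [mem_ball_iff_norm]; exact h1.1, h1.2⟩
    · push Not at hb
      exact absurd (phi_not_band fr P hb) h
  · rintro ⟨i, hi, hA⟩
    rw [phi_band fr P (mem_band_of_mem_ball fr hi)]
    rw [P.ne_zero_iff, mem_ball_zero_iff]
    rw [mem_ball_iff_norm] at hi
    exact ⟨hi, hA⟩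

theorem norm_f_le (i : ℕ) (x : E) : ‖P.f i x‖ ≤ (1 / 2) ^ (i + 2) := by
  have := P.bound i 0 (by omega) x
  rwa [norm_iteratedFDeriv_zero] at this

theorem summable_f (s : ℕ → ℝ) (x : E) : Summable fun i => P.f i (x - ctr fr i (s i)) :=
  Summable.of_norm_bounded (summable_half 2) fun i => norm_f_le P i _

theorem lipschitz_f (i : ℕ) (x y : E) : ‖P.f i x - P.f i y‖ ≤ (1 / 2) ^ (i + 2) * ‖x - y‖ := by
  refine Convex.norm_image_sub_le_of_norm_fderiv_le (𝕜 := ℝ) (s := univ) ?_ ?_ convex_univ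
    (mem_univ y) (mem_univ x)
  · intro z _
    exact ((P.smooth i).differentiable (by simp)).differentiableAt
  · intro z _
    have := P.bound i 1 (by omega) z
    rwa [norm_iteratedFDeriv_one] at this

theorem contDiff_phi (s : ℕ → ℝ) : ContDiff ℝ ∞ (phi fr P s) := by
  refine contDiff_tsum_of_eventually (v := fun _ i => (1 / 2 : ℝ) ^ (i + 2)) ?_ ?_ ?_
  · intro i
    exact (P.smooth i).comp (contDiff_id.sub contDiff_const)
  · intro k _
    exact summable_half 2
  · intro k _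
    rw [Nat.cofinite_eq_atTop]
    filter_upwards [eventually_ge_atTop k] with i hi x
    rw [iteratedFDeriv_comp_sub]
    exact P.bound i k (by omega) _

theorem lipschitz_phi (s : ℕ → ℝ) (x y : E) :
    ‖phi fr P s x - phi fr P s y‖ ≤ 1 / 2 * ‖x - y‖ := by
  have h1 : phi fr P s x - phi fr P s y =
      ∑' i, (P.f i (x - ctr fr i (s i)) - P.f i (y - ctr fr i (s i))) :=
    ((summable_f fr P s x).tsum_sub (summable_f fr P s y)).symm
  rw [h1, ← tsum_half, ← tsum_mul_right]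
  refine tsum_of_norm_bounded ((summable_half 2).mul_right _).hasSum fun i => ?_
  have := lipschitz_f P i (x - ctr fr i (s i)) (y - ctr fr i (s i))
  rwa [sub_sub_sub_cancel_right] at this

theorem continuous_phi_param (x : E) : Continuous fun s : ℕ → ℝ => phi fr P s x := by
  refine continuous_tsum (fun i => ?_) (summable_half 2) fun i s => norm_f_le P i _
  refine (P.smooth i).continuous.comp ?_
  unfold ctr
  have : Continuous fun s : ℕ → ℝ => s i := continuous_apply i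
  fun_prop

/-- The model map. -/
noncomputable def mapF (s : ℕ → ℝ) (x : E) : E := x + phi fr P s x • fr.e0

theorem contDiff_mapF (s : ℕ → ℝ) : ContDiff ℝ ∞ (mapF fr P s) :=
  contDiff_id.add ((contDiff_phi fr P s).smul contDiff_const)

theorem approx_mapF (s : ℕ → ℝ) : ApproximatesLinearOn (mapF fr P s)
    ((ContinuousLinearEquiv.refl ℝ E : E ≃L[ℝ] E) : E →L[ℝ] E) univ (1 / 2 : ℝ≥0) := by
  intro x _ y _
  have h1 : mapF fr P s x - mapF fr P s y -
      ((ContinuousLinearEquiv.refl ℝ E : E ≃L[ℝ] E) : E →L[ℝ] E) (x - y) =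
      (phi fr P s x - phi fr P s y) • fr.e0 := by
    show (x + phi fr P s x • fr.e0) - (y + phi fr P s y • fr.e0) - (x - y) = _
    module
  rw [h1, norm_smul, fr.n0, mul_one]
  simpa using lipschitz_phi fr P s x y

theorem exists_homeo_mapF (s : ℕ → ℝ) : ∃ e : E ≃ₜ E, (∀ x, e x = mapF fr P s x) ∧
    ContDiff ℝ ∞ e.symm := by
  have hc : Subsingleton E ∨
      (1 / 2 : ℝ≥0) < ‖((ContinuousLinearEquiv.refl ℝ E).symm : E →L[ℝ] E)‖₊⁻¹ := by
    right
    have h1 : ‖((ContinuousLinearEquiv.refl ℝ E).symm : E →L[ℝ] E)‖₊ ≤ 1 := by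
      rw [← NNReal.coe_le_coe]
      exact ContinuousLinearMap.norm_id_le
    have h2 : ‖((ContinuousLinearEquiv.refl ℝ E).symm : E →L[ℝ] E)‖₊ ≠ 0 := by
      intro h0
      rw [nnnorm_eq_zero] at h0
      have h3 : ((ContinuousLinearEquiv.refl ℝ E).symm : E →L[ℝ] E) fr.e0 = fr.e0 := rfl
      rw [h0] at h3
      have h4 := fr.n0
      rw [← h3] at h4
      simp at h4
    refine lt_of_lt_of_le ?_ (one_le_inv_iff₀.2 ⟨pos_iff_ne_zero.2 h2, h1⟩)
    rw [← NNReal.coe_lt_coe]
    norm_num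
  let e := (approx_mapF fr P s).toHomeomorph _ hc
  have he : ∀ x, e x = mapF fr P s x := fun x => rfl
  refine ⟨e, he, ?_⟩
  have hd : ∀ a, ∃ L : E ≃L[ℝ] E, HasFDerivAt e (L : E →L[ℝ] E) a := by
    intro a
    have h1 : HasFDerivAt (phi fr P s) (fderiv ℝ (phi fr P s) a) a :=
      ((contDiff_phi fr P s).differentiable (by simp)).differentiableAt.hasFDerivAt
    have h2 : HasFDerivAt (mapF fr P s)
        (ContinuousLinearMap.id ℝ E + (fderiv ℝ (phi fr P s) a).smulRight fr.e0) a :=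
      (hasFDerivAt_id a).add (h1.smul_const fr.e0)
    have h3 : ‖fderiv ℝ (phi fr P s) a‖ ≤ 1 / 2 := by
      have hl : LipschitzWith (1 / 2 : ℝ≥0) (phi fr P s) := by
        refine LipschitzWith.of_dist_le_mul fun x y => ?_
        rw [dist_eq_norm, dist_eq_norm]
        simpa using lipschitz_phi fr P s x y
      have := norm_fderiv_le_of_lipschitz ℝ hl (x₀ := a)
      simpa using this
    set L0 := ContinuousLinearMap.id ℝ E + (fderiv ℝ (phi fr P s) a).smulRight fr.e0 with hL0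
    have hinj : Function.Injective (L0 : E →ₗ[ℝ] E) := by
      rw [← LinearMap.ker_eq_bot, LinearMap.ker_eq_bot']
      intro v hv
      have hv' : v + (fderiv ℝ (phi fr P s) a v) • fr.e0 = 0 := hv
      have h4 : ‖v‖ = ‖fderiv ℝ (phi fr P s) a v‖ := by
        rw [eq_neg_of_add_eq_zero_left hv', norm_neg, norm_smul, fr.n0, mul_one]
        congr 1
        rw [← eq_neg_of_add_eq_zero_left hv']
      have h5 := (fderiv ℝ (phi fr P s) a).le_opNorm v
      have h6 : ‖fderiv ℝ (phi fr P s) a‖ * ‖v‖ ≤ 1 / 2 * ‖v‖ := by gcongr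
      have h7 : ‖v‖ ≤ 0 := by linarith
      exact norm_le_zero_iff.1 h7
    let L := (LinearEquiv.ofInjectiveEndo (L0 : E →ₗ[ℝ] E) hinj).toContinuousLinearEquiv
    refine ⟨L, ?_⟩
    have h8 : (L : E →L[ℝ] E) = L0 := by
      ext v
      rfl
    rw [h8]
    exact h2
  choose L hL using hd
  exact e.contDiff_symm (f₀' := L) hL (contDiff_mapF fr P s)

theorem mapF_band {s : ℕ → ℝ} {i : ℕ} {x : E} (h : x ∈ band fr i) :
    mapF fr P s x = x + P.f i (x - ctr fr i (s i)) • fr.e0 := by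
  unfold mapF
  rw [phi_band fr P h]

theorem mapF_mem_band {s : ℕ → ℝ} {i : ℕ} {x : E} : mapF fr P s x ∈ band fr i ↔ x ∈ band fr i := by
  show |⟪fr.e1, x + _⟫ - _| < _ ↔ |⟪fr.e1, x⟫ - _| < _
  rw [inner_add_e0]

theorem mapF_eq_self_iff {s : ℕ → ℝ} {x : E} : mapF fr P s x = x ↔ phi fr P s x = 0 := by
  unfold mapF
  rw [add_eq_left, smul_eq_zero]
  have : fr.e0 ≠ 0 := by
    intro h
    have := fr.n0
    rw [h] at this
    simp at this
  simp [this]

theorem mapF_injective (s : ℕ → ℝ) : Function.Injective (mapF fr P s) := by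
  obtain ⟨e, he, -⟩ := exists_homeo_mapF fr P s
  intro x y h
  rw [← he, ← he] at h
  exact e.injective h

/-- The `i`-th ball is invariant. -/
theorem mapF_mem_ball {s : ℕ → ℝ} {i : ℕ} {x : E} (h : x ∈ ball (ctr fr i (s i)) (rad i)) :
    mapF fr P s x ∈ ball (ctr fr i (s i)) (rad i) := by
  by_contra hn
  have h1 : mapF fr P s x ∈ band fr i := (mapF_mem_band fr P).2 (mem_band_of_mem_ball fr h)
  have h2 : mapF fr P s (mapF fr P s x) = mapF fr P s x := by
    rw [mapF_eq_self_iff, phi_band fr P h1]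
    exact f_eq_zero fr P hn
  have h3 := mapF_injective fr P s h2
  rw [h3] at hn
  exact hn h

end Pool.Agent.Lib.P9aeaaa
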