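import Pool.Agent.Lib.P9aeaaa.Category

/-!
# The Polish topology of the group of all permutations of `ℕ`
-/

set_option linter.unusedSectionVars false

namespace Pool.Agent.Lib.P9aeaaa

open Set Filter Topology TopologicalSpace

/-- A permutation together with its inverse. -/
def toPair (g : Equiv.Perm ℕ) : (ℕ → ℕ) × (ℕ → ℕ) := (⇑g, ⇑g⁻¹)

/-- The topology of pointwise convergence (of permutations and their inverses). -/
scoped instance permTop : TopologicalSpace (Equiv.Perm ℕ) :=
  TopologicalSpace.induced toPair inferInstance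

/-- The σ-algebra generated by the evaluations. -/
scoped instance permMeas : MeasurableSpace (Equiv.Perm ℕ) :=
  ⨆ n : ℕ, MeasurableSpace.comap (fun g : Equiv.Perm ℕ => g n) ⊤

theorem toPair_injective : Function.Injective toPair := by
  intro g g' h
  have h1 : (⇑g : ℕ → ℕ) = ⇑g' := congrArg Prod.fst h
  exact DFunLike.coe_injective h1

theorem continuous_toPair : Continuous toPair := continuous_induced_dom

theorem continuous_eval (n : ℕ) : Continuous fun g : Equiv.Perm ℕ => g n :=
  (continuous_apply n).comp (continuous_fst.comp continuous_toPair)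

theorem continuous_eval_inv (n : ℕ) : Continuous fun g : Equiv.Perm ℕ => g⁻¹ n :=
  (continuous_apply n).comp (continuous_snd.comp continuous_toPair)

theorem continuous_perm {Z : Type*} [TopologicalSpace Z] {f : Z → Equiv.Perm ℕ}
    (h : ∀ n, Continuous fun z => f z n) (h' : ∀ n, Continuous fun z => (f z)⁻¹ n) :
    Continuous f := by
  rw [continuous_induced_rng]
  exact (continuous_pi h).prodMk (continuous_pi h')

theorem range_toPair : range toPair = {p | ∀ n, p.1 (p.2 n) = n ∧ p.2 (p.1 n) = n} := by
  ext ⟨a, b⟩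
  constructor
  · rintro ⟨g, hg⟩
    have h1 : ⇑g = a := congrArg Prod.fst hg
    have h2 : ⇑g⁻¹ = b := congrArg Prod.snd hg
    subst h1 h2
    intro n
    simp
  · intro h
    refine ⟨⟨a, b, fun n => (h n).2, fun n => (h n).1⟩, rfl⟩

theorem isClosedEmbedding_toPair : IsClosedEmbedding toPair := by
  refine ⟨⟨⟨rfl⟩, toPair_injective⟩, ?_⟩
  rw [range_toPair]
  have h : {p : (ℕ → ℕ) × (ℕ → ℕ) | ∀ n, p.1 (p.2 n) = n ∧ p.2 (p.1 n) = n} =
      ⋂ n : ℕ, ({p | p.1 (p.2 n) = n} ∩ {p | p.2 (p.1 n) = n}) := by
    ext p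
    simp [mem_iInter]
  rw [h]
  refine isClosed_iInter fun n => ?_
  have hev : Continuous fun q : (ℕ → ℕ) × ℕ => q.1 q.2 := by
    rw [continuous_prod_of_discrete_right]
    intro m
    exact continuous_apply m
  refine IsClosed.inter (isClosed_eq ?_ continuous_const) (isClosed_eq ?_ continuous_const)
  · exact hev.comp (continuous_fst.prodMk ((continuous_apply n).comp continuous_snd))
  · exact hev.comp (continuous_snd.prodMk ((continuous_apply n).comp continuous_fst))

scoped instance permPolish : PolishSpace (Equiv.Perm ℕ) := isClosedEmbedding_toPair.polishSpace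

scoped instance permBorel : BorelSpace (Equiv.Perm ℕ) := by
  refine ⟨?_⟩
  have h1 : borel (Equiv.Perm ℕ) = MeasurableSpace.comap toPair (borel _) := borel_comap
  rw [h1, ← BorelSpace.measurable_eq (α := (ℕ → ℕ) × (ℕ → ℕ))]
  apply le_antisymm
  · refine iSup_le fun n => ?_
    rintro s ⟨t, -, rfl⟩
    exact ⟨{p | p.1 n ∈ t}, (measurable_pi_apply n).comp measurable_fst (MeasurableSet.of_discrete),
      rfl⟩
  · rw [← measurable_iff_comap_le]
    have hev : ∀ n : ℕ, @Measurable _ _ (⨆ n : ℕ, MeasurableSpace.comap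
        (fun g : Equiv.Perm ℕ => g n) ⊤) _ fun g : Equiv.Perm ℕ => g n := by
      intro n
      rw [measurable_iff_comap_le]
      exact le_iSup (fun n : ℕ => MeasurableSpace.comap (fun g : Equiv.Perm ℕ => g n) ⊤) n
    refine @Measurable.prodMk _ _ _ _ _ (_) _ _ ?_ ?_
    · exact @measurable_pi_lambda _ _ _ (_) _ _ hev
    · refine @measurable_pi_lambda _ _ _ (_) _ _ fun n => ?_
      refine @measurable_to_countable' _ _ _ _ (_) _ fun m => ?_
      have h2 : (fun g : Equiv.Perm ℕ => g⁻¹ n) ⁻¹' {m} = (fun g : Equiv.Perm ℕ => g m) ⁻¹' {n} := by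
        ext g
        simp only [mem_preimage, mem_singleton_iff]
        constructor
        · rintro rfl
          simp
        · rintro rfl
          simp
      rw [h2]
      exact hev m (MeasurableSet.singleton n)

/-- Right translations are homeomorphisms. -/
def rightHomeo (s : Equiv.Perm ℕ) : Equiv.Perm ℕ ≃ₜ Equiv.Perm ℕ where
  toEquiv := Equiv.mulRight s
  continuous_toFun := by
    refine continuous_perm (fun n => ?_) (fun n => ?_)
    · exact continuous_eval (s n)
    · have h : (fun z : Equiv.Perm ℕ => (Equiv.mulRight s z)⁻¹ n) = fun z => s⁻¹ (z⁻¹ n) := by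
        funext z
        simp [mul_inv_rev]
      show Continuous fun z : Equiv.Perm ℕ => (Equiv.mulRight s z)⁻¹ n
      rw [h]
      exact continuous_of_discreteTopology.comp (continuous_eval_inv n)
  continuous_invFun := by
    refine continuous_perm (fun n => ?_) (fun n => ?_)
    · exact continuous_eval (s⁻¹ n)
    · have h : (fun z : Equiv.Perm ℕ => ((Equiv.mulRight s).symm z)⁻¹ n) = fun z => s (z⁻¹ n) := by
        funext z
        simp [mul_inv_rev]
      show Continuous fun z : Equiv.Perm ℕ => ((Equiv.mulRight s).symm z)⁻¹ n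
      rw [h]
      exact continuous_of_discreteTopology.comp (continuous_eval_inv n)

/-- The basic open set of the permutations whose inverse extends the finite sequence `b`. -/
def cc (b : List ℕ) : Set (Equiv.Perm ℕ) := {g | ∀ i (h : i < b.length), g⁻¹ i = b[i]}

theorem isOpen_cc (b : List ℕ) : IsOpen (cc b) := by
  have h : cc b = ⋂ i : Fin b.length, (fun g : Equiv.Perm ℕ => g⁻¹ i) ⁻¹' {b[i]} := by
    ext g
    simp only [cc, mem_ofPred_eq, mem_iInter, mem_preimage, mem_singleton_iff]
    exact ⟨fun h i => h i i.2, fun h i hi => h ⟨i, hi⟩⟩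
  rw [h]
  exact isOpen_iInter_of_finite fun i => (isOpen_discrete _).preimage (continuous_eval_inv _)

/-- The sets `cc b` form a basis. -/
theorem exists_cc {U : Set (Equiv.Perm ℕ)} (hU : IsOpen U) {g : Equiv.Perm ℕ} (hg : g ∈ U) :
    ∃ b, g ∈ cc b ∧ cc b ⊆ U := by
  obtain ⟨T, hT, rfl⟩ := isOpen_induced_iff.1 hU
  obtain ⟨V1, V2, hV1, hV2, h1, h2, hsub⟩ := isOpen_prod_iff.1 hT (⇑g) (⇑g⁻¹) hg
  have h1' := hV1.mem_nhds h1
  have h2' := hV2.mem_nhds h2
  rw [nhds_pi, Filter.mem_pi'] at h1' h2'
  obtain ⟨I1, t1, ht1, hs1⟩ := h1'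
  obtain ⟨I2, t2, ht2, hs2⟩ := h2'
  let N : ℕ := (I1.sup fun i => g i) + I2.sup id + 1
  refine ⟨(List.range N).map fun i => g⁻¹ i, ?_, ?_⟩
  · intro i hi
    simp
  · intro g' hg'
    have key : ∀ i < N, g'⁻¹ i = g⁻¹ i := by
      intro i hi
      have h3 := hg' i (by simpa using hi)
      simpa using h3
    apply hsub
    refine ⟨hs1 fun i hi => ?_, hs2 fun i hi => ?_⟩
    · have h3 : g i < N := by
        have h := Finset.le_sup (f := fun i => g i) hi
        have h' : g i ≤ I1.sup fun i => g i := h
        omega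
      have h4 := key _ h3
      show g' i ∈ t1 i
      have h6 : g' i = g i := by
        have h7 := congrArg g' h4
        simpa using h7.symm
      rw [h6]
      exact mem_of_mem_nhds (ht1 i)
    · have h3 : i < N := by
        have h := Finset.le_sup (f := id) hi
        have h' : i ≤ I2.sup id := h
        omega
      show g'⁻¹ i ∈ t2 i
      rw [key i h3]
      exact mem_of_mem_nhds (ht2 i)

theorem mem_cc_mul {b : List ℕ} {g s : Equiv.Perm ℕ} : g * s ∈ cc (b.map fun i => s⁻¹ i) ↔ g ∈ cc b := by
  simp only [cc, mem_ofPred_eq, List.length_map, List.getElem_map, mul_inv_rev,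
    Equiv.Perm.mul_apply]
  refine forall_congr' fun i => forall_congr' fun hi => ?_
  exact (Equiv.injective _).eq_iff

end Pool.Agent.Lib.P9aeaaa
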