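import Pool.Agent.Lib.P9aeaaa.PermTop

/-!
# Vaught transforms of a Borel action of the group of all permutations of `ℕ`
-/

set_option linter.unusedSectionVars false

namespace Pool.Agent.Lib.P9aeaaa

open Set Filter Topology TopologicalSpace

variable {Y : Type*} [MeasurableSpace Y] [StandardBorelSpace Y] [MulAction (Equiv.Perm ℕ) Y]

/-- A separating map. -/
noncomputable def sep (Y : Type*) [MeasurableSpace Y] [StandardBorelSpace Y] : Y → ℕ → Bool :=
  (MeasurableSpace.measurable_injection_nat_bool_of_countablySeparated Y).choose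

theorem measurable_sep : Measurable (sep Y) :=
  (MeasurableSpace.measurable_injection_nat_bool_of_countablySeparated Y).choose_spec.1

theorem sep_injective : Function.Injective (sep Y) :=
  (MeasurableSpace.measurable_injection_nat_bool_of_countablySeparated Y).choose_spec.2

theorem measurableSet_sep (k : ℕ) : MeasurableSet {y : Y | sep Y y k = true} :=
  (measurable_pi_apply k).comp measurable_sep (MeasurableSet.singleton true)

/-- The transform. -/
def Psi (y : Y) (k : ℕ) (b : List ℕ) : Prop := ¬ ComIn (cc b) {g | ¬ sep Y (g • y) k = true}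

theorem psi_equivariant (s : Equiv.Perm ℕ) (y : Y) (k : ℕ) (b : List ℕ) :
    Psi (s • y) k b ↔ Psi y k (b.map fun i => s⁻¹ i) := by
  unfold Psi ComIn
  rw [not_iff_not]
  have h := (rightHomeo s).residual_map_eq
  conv_rhs => rw [← h, Filter.eventually_map]
  have h1 : ∀ g : Equiv.Perm ℕ, rightHomeo s g = g * s := fun g => rfl
  simp only [h1, mem_cc_mul, mem_ofPred_eq, mul_smul]

theorem measurable_smul_left (hact : Measurable fun p : Equiv.Perm ℕ × Y => p.1 • p.2) (y : Y) :
    Measurable fun g : Equiv.Perm ℕ => g • y :=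
  hact.comp (measurable_id.prodMk measurable_const)

theorem psi_injective (hact : Measurable fun p : Equiv.Perm ℕ × Y => p.1 • p.2) {y z : Y}
    (h : ∀ k b, Psi y k b ↔ Psi z k b) : y = z := by
  have hcore : ∀ (w : Y) (k : ℕ), core {g : Equiv.Perm ℕ | ¬ sep Y (g • w) k = true} =
      ⋃ (b : List ℕ) (_ : ¬ Psi w k b), cc b := by
    intro w k
    apply Subset.antisymm
    · rintro g ⟨U, ⟨hU, hUc⟩, hgU⟩
      obtain ⟨b, hgb, hbU⟩ := exists_cc hU hgU
      refine mem_iUnion₂.2 ⟨b, ?_, hgb⟩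
      unfold Psi
      rw [not_not]
      exact hUc.anti hbU
    · refine iUnion₂_subset fun b hb => ?_
      unfold Psi at hb
      rw [not_not] at hb
      exact subset_core (isOpen_cc b) hb
  have hbp : ∀ (w : Y) (k : ℕ), BP {g : Equiv.Perm ℕ | ¬ sep Y (g • w) k = true} := by
    intro w k
    apply BP.of_measurable
    exact (measurable_smul_left hact w (measurableSet_sep k)).compl
  have h1 : ∀ᶠ g in residual (Equiv.Perm ℕ), ∀ k, (sep Y (g • y) k = true ↔ sep Y (g • z) k = true) := by
    rw [eventually_countable_forall]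
    intro k
    filter_upwards [(hbp y k).core_eq, (hbp z k).core_eq] with g hy hz
    rw [hcore] at hy hz
    have h2 : (⋃ (b : List ℕ) (_ : ¬ Psi y k b), cc b) = ⋃ (b : List ℕ) (_ : ¬ Psi z k b), cc b := by
      simp only [h k]
    rw [h2, ← hz] at hy
    exact not_iff_not.1 hy
  obtain ⟨g, -, hg⟩ := exists_of_residual isOpen_univ ⟨1, mem_univ _⟩ h1
  have h3 : g • y = g • z := by
    apply sep_injective
    funext k
    exact Bool.eq_iff_iff.2 (hg k)
  exact smul_left_cancel g h3

theorem orbit_limit (hact : Measurable fun p : Equiv.Perm ℕ × Y => p.1 • p.2) {y z : Y}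
    {g : ℕ → Equiv.Perm ℕ} {G : Equiv.Perm ℕ} (hG : ∀ i, ∀ᶠ k in atTop, (g k)⁻¹ i = G⁻¹ i)
    (h : ∀ κ b, ∀ᶠ k in atTop, (Psi (g k • y) κ b ↔ Psi z κ b)) : z = G • y := by
  apply psi_injective hact
  intro κ b
  have h1 : ∀ᶠ k in atTop, ∀ i ∈ b, (g k)⁻¹ i = G⁻¹ i := by
    have := (eventually_all_finset (l := atTop) b.toFinset (p := fun i k => (g k)⁻¹ i = G⁻¹ i)).2
      fun i _ => hG i
    simpa using this
  obtain ⟨k, hk1, hk2⟩ := (h1.and (h κ b)).exists
  rw [← hk2, psi_equivariant, psi_equivariant]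
  have h2 : (b.map fun i => (g k)⁻¹ i) = b.map fun i => G⁻¹ i := List.map_congr_left hk1
  rw [h2]

/-- Along a generic set, the transform of a Borel map is continuous. -/
theorem exists_cont {X : Type*} [TopologicalSpace X] [SecondCountableTopology X] [BaireSpace X]
    [MeasurableSpace X] [BorelSpace X]
    (hact : Measurable fun p : Equiv.Perm ℕ × Y => p.1 • p.2) {θ : X → Y} (hθ : Measurable θ) :
    ∃ C ∈ residual X, ∀ z ∈ C, ∀ (κ : ℕ) (b : List ℕ), ∀ᶠ x in 𝓝 z, x ∈ C →
      (Psi (θ x) κ b ↔ Psi (θ z) κ b) := by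
  have h1 : ∀ (κ : ℕ) (b : List ℕ), BP {x | Psi (θ x) κ b} := by
    intro κ b
    have h2 : BP {p : X × Equiv.Perm ℕ | sep Y (p.2 • θ p.1) κ = true} := by
      apply BP.of_measurable
      have h3 : Measurable fun p : X × Equiv.Perm ℕ => p.2 • θ p.1 :=
        hact.comp (measurable_snd.prodMk (hθ.comp measurable_fst))
      exact h3 (measurableSet_sep κ)
    exact h2.exists_star (isOpen_cc b)
  choose u hu hu' using h1
  choose v hv hv' using fun κ b => (BP.of_open (hu κ b)).compl
  refine ⟨{x | ∀ κ b, (Psi (θ x) κ b ↔ x ∈ u κ b) ∧ (x ∉ u κ b ↔ x ∈ v κ b)}, ?_, ?_⟩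
  · show ∀ᶠ x in residual X, ∀ κ b, (Psi (θ x) κ b ↔ x ∈ u κ b) ∧ (x ∉ u κ b ↔ x ∈ v κ b)
    rw [eventually_countable_forall]
    intro κ
    rw [eventually_countable_forall]
    intro b
    exact (hu' κ b).and (hv' κ b)
  · intro z hz κ b
    by_cases hzu : z ∈ u κ b
    · filter_upwards [(hu κ b).mem_nhds hzu] with x hx hxC
      rw [(hz κ b).1, (hxC κ b).1]
      exact ⟨fun _ => hzu, fun _ => hx⟩
    · have hzv := (hz κ b).2.1 hzu
      filter_upwards [(hv κ b).mem_nhds hzv] with x hx hxC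
      rw [(hz κ b).1, (hxC κ b).1]
      exact ⟨fun h => absurd h ((hxC κ b).2.2 hx), fun h => absurd h hzu⟩

end Pool.Agent.Lib.P9aeaaa
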