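import Pool.Agent.Lib.P9aeaaa.Model

/-!
# The conjugating shears
-/

set_option linter.unusedSectionVars false

namespace Pool.Agent.Lib.P9aeaaa

open Set Filter Topology Metric
open scoped RealInnerProductSpace ContDiff NNReal

variable {E : Type*} [NormedAddCommGroup E] [InnerProductSpace ℝ E] [FiniteDimensional ℝ E]

variable (fr : Frame E) (P : Prof E)

/-- Truncation to `[0, 1]`. -/
noncomputable def cl (z : ℝ) : ℝ := max 0 (min 1 z)

theorem cl_nonneg (z : ℝ) : 0 ≤ cl z := le_max_left _ _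

theorem cl_le_one (z : ℝ) : cl z ≤ 1 := max_le (by norm_num) (min_le_left _ _)

theorem cl_eq_one {z : ℝ} (h : 1 ≤ z) : cl z = 1 := by
  unfold cl
  rw [min_eq_left h]
  norm_num

theorem cl_eq_zero {z : ℝ} (h : z ≤ 0) : cl z = 0 := by
  unfold cl
  rw [min_eq_right (by linarith), max_eq_left h]

theorem continuous_cl : Continuous cl := by
  unfold cl
  fun_prop

theorem cl_lipschitz (z w : ℝ) : |cl z - cl w| ≤ |z - w| := by
  unfold cl
  calc |max 0 (min 1 z) - max 0 (min 1 w)| ≤ |min 1 z - min 1 w| := by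
        have := abs_max_sub_max_le_max 0 (min 1 z) 0 (min 1 w)
        simpa using this
    _ ≤ |z - w| := by
        have := abs_min_sub_min_le_max 1 z 1 w
        simpa using this

/-- Radial cutoff. -/
noncomputable def cutA (x : E) : ℝ := cl (3 / 2 - ‖x‖)

/-- Vertical cutoff. -/
noncomputable def cutB (i : ℕ) (y : ℝ) : ℝ := cl (2 - |y - lev i| / rad i)

/-- The vertical profile. -/
noncomputable def lam (δ : ℕ → ℝ) (y : ℝ) : ℝ := ∑' i, δ i * cutB i y

/-- The shear. -/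
noncomputable def hmap (δ : ℕ → ℝ) (x : E) : E := x + (cutA x * lam δ ⟪fr.e1, x⟫) • fr.e0

theorem cutB_eq_zero {i : ℕ} {y : ℝ} (h : 2 * rad i ≤ |y - lev i|) : cutB i y = 0 := by
  apply cl_eq_zero
  have := rad_pos i
  have h1 : 2 ≤ |y - lev i| / rad i := by rwa [le_div_iff₀ this]
  linarith

theorem cutB_eq_one {i : ℕ} {y : ℝ} (h : |y - lev i| ≤ rad i) : cutB i y = 1 := by
  apply cl_eq_one
  have := rad_pos i
  have h1 : |y - lev i| / rad i ≤ 1 := by rwa [div_le_one this]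
  linarith

theorem lam_band {δ : ℕ → ℝ} {i : ℕ} {x : E} (h : x ∈ band fr i) :
    lam δ ⟪fr.e1, x⟫ = δ i * cutB i ⟪fr.e1, x⟫ := by
  unfold lam
  refine tsum_eq_single i fun j hj => ?_
  rw [cutB_eq_zero, mul_zero]
  by_contra hcon
  push Not at hcon
  exact hj (band_unique fr hcon h)

theorem lam_not_band {δ : ℕ → ℝ} {x : E} (h : ∀ i, x ∉ band fr i) : lam δ ⟪fr.e1, x⟫ = 0 := by
  unfold lam
  have : ∀ i, δ i * cutB i ⟪fr.e1, x⟫ = 0 := by
    intro i
    rw [cutB_eq_zero, mul_zero]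
    by_contra hcon
    push Not at hcon
    exact h i hcon
  simp [this]

theorem abs_lam_le {δ : ℕ → ℝ} (hδ : ∀ i, |δ i| ≤ 1 / 4) (x : E) : |lam δ ⟪fr.e1, x⟫| ≤ 1 / 4 := by
  by_cases hb : ∃ i, x ∈ band fr i
  · obtain ⟨i, hi⟩ := hb
    rw [lam_band fr hi, abs_mul]
    have h1 : |cutB i ⟪fr.e1, x⟫| ≤ 1 := by
      unfold cutB
      rw [abs_of_nonneg (cl_nonneg _)]
      exact cl_le_one _
    calc |δ i| * |cutB i ⟪fr.e1, x⟫| ≤ 1 / 4 * 1 := by
          gcongr
          exact hδ i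
      _ = 1 / 4 := by norm_num
  · push Not at hb
    rw [lam_not_band fr hb]
    norm_num

theorem continuous_cutB (i : ℕ) : Continuous (cutB i) := by
  unfold cutB
  exact continuous_cl.comp (by fun_prop)

theorem continuous_lam {δ : ℕ → ℝ} (hs : Summable fun i => |δ i|) : Continuous (lam δ) := by
  refine continuous_tsum (fun i => continuous_const.mul (continuous_cutB i)) hs fun i y => ?_
  rw [norm_mul, Real.norm_eq_abs, Real.norm_eq_abs, abs_of_nonneg (a := cutB i y) (cl_nonneg _)]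
  exact mul_le_of_le_one_right (abs_nonneg _) (cl_le_one _)

theorem continuous_cutA : Continuous (cutA : E → ℝ) := by
  unfold cutA
  exact continuous_cl.comp (by fun_prop)

theorem cutA_lipschitz (x y : E) : |cutA x - cutA y| ≤ ‖x - y‖ := by
  unfold cutA
  refine (cl_lipschitz _ _).trans ?_
  have h1 : 3 / 2 - ‖x‖ - (3 / 2 - ‖y‖) = -(‖x‖ - ‖y‖) := by ring
  rw [h1, abs_neg]
  exact abs_norm_sub_norm_le x y

theorem continuous_hmap {δ : ℕ → ℝ} (hs : Summable fun i => |δ i|) : Continuous (hmap fr δ) := by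
  unfold hmap
  have h1 := continuous_lam hs
  have h2 : Continuous (cutA : E → ℝ) := continuous_cutA
  have h3 : Continuous fun x : E => lam δ ⟪fr.e1, x⟫ := h1.comp (by fun_prop)
  exact continuous_id.add ((h2.mul h3).smul continuous_const)

theorem hmap_injective {δ : ℕ → ℝ} (hδ : ∀ i, |δ i| ≤ 1 / 4) : Function.Injective (hmap fr δ) := by
  intro x y h
  have h1 : ⟪fr.e1, x⟫ = ⟪fr.e1, y⟫ := by
    have := congrArg (fun z => ⟪fr.e1, z⟫) h
    simp only [hmap, inner_add_e0] at this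
    exact this
  have h2 : x - y = ((cutA y - cutA x) * lam δ ⟪fr.e1, x⟫) • fr.e0 := by
    unfold hmap at h
    rw [← h1] at h
    have h3 : x - y = (cutA y * lam δ ⟪fr.e1, x⟫) • fr.e0 - (cutA x * lam δ ⟪fr.e1, x⟫) • fr.e0 := by
      rw [sub_eq_sub_iff_add_eq_add]
      rw [h, add_comm]
    rw [h3]
    module
  have h4 : ‖x - y‖ ≤ ‖x - y‖ * (1 / 4) := by
    conv_lhs => rw [h2, norm_smul, fr.n0, mul_one, norm_mul, Real.norm_eq_abs, Real.norm_eq_abs]
    gcongr
    · have := cutA_lipschitz y x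
      rwa [norm_sub_rev] at this
    · exact abs_lam_le fr hδ x
  have h5 : ‖x - y‖ ≤ 0 := by
    have := norm_nonneg (x - y)
    linarith
  exact sub_eq_zero.1 (norm_le_zero_iff.1 h5)

theorem hmap_surjective {δ : ℕ → ℝ} (hδ : ∀ i, |δ i| ≤ 1 / 4) :
    Function.Surjective (hmap fr δ) := by
  intro y
  let g : ℝ → ℝ := fun τ => τ + cutA (y + (τ : ℝ) • fr.e0 : E) * lam δ ⟪fr.e1, y⟫
  have hg : Continuous g := by
    have h2 : Continuous (cutA : E → ℝ) := continuous_cutA
    have h3 : Continuous fun τ : ℝ => y + τ • fr.e0 := by fun_prop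
    exact continuous_id.add ((h2.comp h3).mul continuous_const)
  have hb : ∀ τ : ℝ, |cutA (y + τ • fr.e0) * lam δ ⟪fr.e1, y⟫| ≤ 1 / 4 := by
    intro τ
    rw [abs_mul]
    have h1 : |cutA (y + τ • fr.e0)| ≤ 1 := by
      unfold cutA
      rw [abs_of_nonneg (cl_nonneg _)]
      exact cl_le_one _
    calc |cutA (y + τ • fr.e0)| * |lam δ ⟪fr.e1, y⟫| ≤ 1 * (1 / 4) := by
          gcongr
          exact abs_lam_le fr hδ y
      _ = 1 / 4 := by norm_num
  have h1 : g (-1) ≤ 0 := by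
    have := (abs_le.1 (hb (-1))).2
    show -1 + _ ≤ 0
    linarith
  have h2 : 0 ≤ g 1 := by
    have := (abs_le.1 (hb 1)).1
    show 0 ≤ 1 + _
    linarith
  obtain ⟨τ, -, hτ⟩ := intermediate_value_Icc (by norm_num : (-1 : ℝ) ≤ 1) hg.continuousOn
    (mem_Icc.2 ⟨h1, h2⟩)
  refine ⟨y + τ • fr.e0, ?_⟩
  unfold hmap
  rw [inner_add_e0]
  have h3 : cutA (y + τ • fr.e0) * lam δ ⟪fr.e1, y⟫ = -τ := by
    have : τ + cutA (y + τ • fr.e0) * lam δ ⟪fr.e1, y⟫ = 0 := hτ
    linarith
  rw [h3]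
  module

theorem hmap_of_norm_ge {δ : ℕ → ℝ} {x : E} (h : 3 / 2 ≤ ‖x‖) : hmap fr δ x = x := by
  unfold hmap cutA
  rw [cl_eq_zero (by linarith)]
  simp

theorem norm_lt_of_mem_ball {i : ℕ} {τ : ℝ} (hτ : |τ| ≤ 1 / 8) {x : E}
    (h : x ∈ ball (ctr fr i τ) (rad i)) : ‖x‖ < 1 / 2 := by
  rw [mem_ball_iff_norm] at h
  have h1 : ‖ctr fr i τ‖ ≤ 1 / 8 + 1 / 4 := by
    unfold ctr
    refine (norm_add_le _ _).trans ?_
    rw [norm_smul, norm_smul, fr.n0, fr.n1, mul_one, mul_one, Real.norm_eq_abs, Real.norm_eq_abs,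
      abs_of_pos (lev_pos i)]
    have := lev_le i
    linarith
  have h2 := rad_le i
  have h3 : ‖x‖ ≤ ‖x - ctr fr i τ‖ + ‖ctr fr i τ‖ := by
    have := norm_add_le (x - ctr fr i τ) (ctr fr i τ)
    simpa using this
  linarith

theorem hmap_ball {s s' : ℕ → ℝ} (hs : ∀ i, |s i| ≤ 1 / 8) {i : ℕ} {x : E}
    (h : x ∈ ball (ctr fr i (s i)) (rad i)) :
    hmap fr (fun i => s' i - s i) x = x + (s' i - s i) • fr.e0 := by
  unfold hmap
  rw [lam_band fr (mem_band_of_mem_ball fr h), cutB_eq_one (abs_inner_lt_of_mem_ball fr h).le]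
  have h1 : cutA x = 1 := by
    apply cl_eq_one
    have := norm_lt_of_mem_ball fr (hs i) h
    linarith
  rw [h1]
  simp

theorem ctr_sub (i : ℕ) (a b : ℝ) (x : E) :
    x + (b - a) • fr.e0 - ctr fr i b = x - ctr fr i a := by
  unfold ctr
  module

/-- The shear conjugates the two model maps. -/
theorem hmap_conj {s s' : ℕ → ℝ} (hs : ∀ i, |s i| ≤ 1 / 8) (hs' : ∀ i, |s' i| ≤ 1 / 8) (x : E) :
    hmap fr (fun i => s' i - s i) (mapF fr P s x) = mapF fr P s' (hmap fr (fun i => s' i - s i) x) := by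
  have hδ : ∀ i, |(fun i => s' i - s i) i| ≤ 1 / 4 := by
    intro i
    have h1 := abs_le.1 (hs i)
    have h2 := abs_le.1 (hs' i)
    show |s' i - s i| ≤ 1 / 4
    rw [abs_le]
    constructor <;> linarith [h1.1, h1.2, h2.1, h2.2]
  have hband : ∀ {i : ℕ} {x : E}, hmap fr (fun i => s' i - s i) x ∈ band fr i ↔ x ∈ band fr i := by
    intro i x
    show |⟪fr.e1, x + _⟫ - _| < _ ↔ |⟪fr.e1, x⟫ - _| < _
    rw [inner_add_e0]
  by_cases hb : ∃ i, x ∈ band fr i
  · obtain ⟨i, hi⟩ := hb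
    by_cases hx : x ∈ ball (ctr fr i (s i)) (rad i)
    · have hFx := mapF_mem_ball fr P hx
      rw [hmap_ball fr hs hFx, hmap_ball fr hs hx]
      have h1 : x + (s' i - s i) • fr.e0 ∈ band fr i := by
        have := hband.2 hi
        rwa [hmap_ball fr hs hx] at this
      rw [mapF_band fr P h1, mapF_band fr P hi, ctr_sub]
      module
    · have h1 : mapF fr P s x = x := by
        rw [mapF_band fr P hi, f_eq_zero fr P hx]
        simp
      rw [h1, mapF_band fr P (hband.2 hi), f_eq_zero fr P, zero_smul, add_zero]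
      intro hy
      apply hx
      have hy' := hy
      rw [mem_ball_iff_norm] at hy
      set y := hmap fr (fun i => s' i - s i) x with hydef
      have h2 : y + (s i - s' i) • fr.e0 ∈ ball (ctr fr i (s i)) (rad i) := by
        rw [mem_ball_iff_norm, ctr_sub]
        exact hy
      have h3 := hmap_ball (s' := s') fr hs h2
      have h4 : y + (s i - s' i) • fr.e0 + (s' i - s i) • fr.e0 = y := by module
      rw [h4, hydef] at h3
      have h5 := hmap_injective fr hδ h3
      rw [hydef] at h2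
      rw [h5] at h2
      exact h2
  · push Not at hb
    have h1 : mapF fr P s x = x := by
      rw [mapF_eq_self_iff]
      exact phi_not_band fr P hb
    rw [h1]
    symm
    rw [mapF_eq_self_iff]
    exact phi_not_band fr P fun i hi => hb i (hband.1 hi)

end Pool.Agent.Lib.P9aeaaa
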