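import Pool.Agent.Lib.P9aeaaa.Psi

/-!
# Turbulence for translation actions of separable Banach spaces
-/

set_option linter.unusedSectionVars false

namespace Pool.Agent.Lib.P9aeaaa

open Set Filter Topology TopologicalSpace

section Aux

theorem residual_comp_homeo {Z W : Type*} [TopologicalSpace Z] [TopologicalSpace W] (e : Z ≃ₜ W)
    {P : W → Prop} : (∀ᶠ z in residual Z, P (e z)) ↔ ∀ᶠ w in residual W, P w := by
  rw [← e.residual_map_eq, Filter.eventually_map]

theorem BP.comp_homeo {Z W : Type*} [TopologicalSpace Z] [TopologicalSpace W] (e : Z ≃ₜ W)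
    {S : Set W} (h : BP S) : BP (e ⁻¹' S) := by
  obtain ⟨u, hu, hu'⟩ := h
  exact ⟨e ⁻¹' u, hu.preimage e.continuous, (residual_comp_homeo e).2 hu'⟩

theorem residual_fst {Z W : Type*} [TopologicalSpace Z] [TopologicalSpace W]
    {P : Z → Prop} (h : ∀ᶠ z in residual Z, P z) : ∀ᶠ q in residual (Z × W), P q.1 :=
  (tendsto_residual_of_isOpenMap continuous_fst isOpenMap_fst).eventually h

theorem BP.fst {Z W : Type*} [TopologicalSpace Z] [TopologicalSpace W]
    {S : Set Z} (h : BP S) : BP {q : Z × W | q.1 ∈ S} := by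
  obtain ⟨u, hu, hu'⟩ := h
  exact ⟨{q | q.1 ∈ u}, hu.preimage continuous_fst, residual_fst hu'⟩

/-- Translations of a topological group are homeomorphisms: `P` holds generically near `0`
after translating by `a` iff it holds generically near `a`. -/
theorem residual_translate {A : Type*} [TopologicalSpace A] [AddGroup A] [ContinuousAdd A]
    (a : A) {P : A → Prop} : (∀ᶠ k in residual A, P (a + k)) ↔ ∀ᶠ k in residual A, P k :=
  residual_comp_homeo (Homeomorph.addLeft a)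

end Aux

section Turb

variable {X : Type*} [AddCommGroup X] [Module ℝ X] [TopologicalSpace X] [IsTopologicalAddGroup X]
  [ContinuousSMul ℝ X] [LocallyConvexSpace ℝ X] [PolishSpace X] [MeasurableSpace X] [BorelSpace X]
  {H : Type*} [NormedAddCommGroup H] [NormedSpace ℝ H] [CompleteSpace H]
  [SecondCountableTopology H] [MeasurableSpace H] [BorelSpace H]
  {Y : Type*} [MeasurableSpace Y] [StandardBorelSpace Y] [MulAction (Equiv.Perm ℕ) Y]

/-- `x'` is reached from `x` by a permutation fixing `F`. -/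
def Rel (θ : X → Y) (F : Finset ℕ) (x x' : X) : Prop :=
  ∃ g : Equiv.Perm ℕ, (∀ i ∈ F, g i = i) ∧ θ x' = g • θ x

theorem Rel.refl {θ : X → Y} {F : Finset ℕ} (x : X) : Rel θ F x x :=
  ⟨1, fun _ _ => rfl, (one_smul _ _).symm⟩

theorem Rel.trans {θ : X → Y} {F : Finset ℕ} {x x' x'' : X} (h : Rel θ F x x')
    (h' : Rel θ F x' x'') : Rel θ F x x'' := by
  obtain ⟨g, hg, e⟩ := h
  obtain ⟨g', hg', e'⟩ := h'
  refine ⟨g' * g, fun i hi => ?_, ?_⟩
  · rw [Equiv.Perm.mul_apply, hg i hi, hg' i hi]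
  · rw [e', e, mul_smul]

/-- The shear homeomorphism. -/
def shearH (π : H →L[ℝ] X) : X × H ≃ₜ X × H where
  toFun q := (q.1 + π q.2, q.2)
  invFun q := (q.1 - π q.2, q.2)
  left_inv q := by simp
  right_inv q := by simp
  continuous_toFun := by fun_prop
  continuous_invFun := by fun_prop

/-- The set of pairs reached by a permutation with a prescribed restriction. -/
def PP (π : H →L[ℝ] X) (θ : X → Y) (F : Finset ℕ) (b : F → ℕ) : Set (X × H) :=
  {q | ∃ g : Equiv.Perm ℕ, (∀ i : F, g⁻¹ i = b i) ∧ θ (q.1 + π q.2) = g • θ q.1}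

theorem bp_PP (π : H →L[ℝ] X) {θ : X → Y} (hθ : Measurable θ)
    (hact : Measurable fun p : Equiv.Perm ℕ × Y => p.1 • p.2) (F : Finset ℕ) (b : F → ℕ) :
    BP (PP π θ F b) := by
  apply bp_analytic
  let S : Set ((X × H) × Equiv.Perm ℕ) :=
    {r | (∀ i : F, r.2⁻¹ i = b i) ∧ θ (r.1.1 + π r.1.2) = r.2 • θ r.1.1}
  have hS : MeasurableSet S := by
    apply MeasurableSet.inter
    · have : {r : (X × H) × Equiv.Perm ℕ | ∀ i : F, r.2⁻¹ i = b i} =
          ⋂ i : F, {r | r.2⁻¹ i = b i} := by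
        ext r
        simp
      show MeasurableSet {r : (X × H) × Equiv.Perm ℕ | ∀ i : F, r.2⁻¹ i = b i}
      rw [this]
      refine MeasurableSet.iInter fun i => ?_
      have hc : Continuous fun r : (X × H) × Equiv.Perm ℕ => r.2⁻¹ (i : ℕ) :=
        (continuous_eval_inv i).comp continuous_snd
      exact ((isOpen_discrete {b i}).preimage hc).measurableSet
    · have hc : Continuous fun r : (X × H) × Equiv.Perm ℕ => r.1.1 + π r.1.2 := by fun_prop
      refine measurableSet_eq_fun (hθ.comp hc.measurable) ?_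
      exact hact.comp (measurable_snd.prodMk (hθ.comp (measurable_fst.comp measurable_fst)))
  have himg : PP π θ F b = Prod.fst '' S := by
    ext q
    constructor
    · rintro ⟨g, h1, h2⟩
      exact ⟨(q, g), ⟨h1, h2⟩, rfl⟩
    · rintro ⟨⟨q', g⟩, ⟨h1, h2⟩, rfl⟩
      exact ⟨g, h1, h2⟩
  rw [himg]
  exact hS.analyticSet.image_of_continuous continuous_fst

theorem bp_Rel (π : H →L[ℝ] X) {θ : X → Y} (hθ : Measurable θ)
    (hact : Measurable fun p : Equiv.Perm ℕ × Y => p.1 • p.2) (F : Finset ℕ) :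
    BP {q : X × H | Rel θ F q.1 (q.1 + π q.2)} := by
  have h := bp_PP π hθ hact F (fun i => (i : ℕ))
  have he : PP π θ F (fun i => (i : ℕ)) = {q : X × H | Rel θ F q.1 (q.1 + π q.2)} := by
    ext q
    constructor
    · rintro ⟨g, h1, h2⟩
      refine ⟨g, fun i hi => ?_, h2⟩
      have := h1 ⟨i, hi⟩
      simp only at this
      conv_lhs => rw [← this]
      simp
    · rintro ⟨g, h1, h2⟩
      refine ⟨g, fun i => ?_, h2⟩
      have := h1 i i.2
      conv_lhs => rw [← this]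
      simp
  rw [← he]
  exact h

/-- Points from which all small generic moves fix `F`. -/
def GG (π : H →L[ℝ] X) (θ : X → Y) (F : Finset ℕ) (n : ℕ) : Set X :=
  {x | ComIn (Metric.ball (0 : H) (1 / ((n : ℝ) + 1))) {k | Rel θ F x (x + π k)}}

theorem bp_GG (π : H →L[ℝ] X) {θ : X → Y} (hθ : Measurable θ)
    (hact : Measurable fun p : Equiv.Perm ℕ × Y => p.1 • p.2) (F : Finset ℕ) (n : ℕ) :
    BP (GG π θ F n) :=
  (bp_Rel π hθ hact F).forall_star Metric.isOpen_ball

theorem gg_generic (π : H →L[ℝ] X) {θ : X → Y} (hθ : Measurable θ)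
    (hact : Measurable fun p : Equiv.Perm ℕ × Y => p.1 • p.2)
    (hinv : ∀ x h, ∃ g : Equiv.Perm ℕ, θ (x + π h) = g • θ x) (F : Finset ℕ) :
    ∀ᶠ x in residual X, ∃ n, x ∈ GG π θ F n := by
  choose u hu hu' using fun b : F → ℕ => (bp_PP π hθ hact F b).section
  have h1 : ∀ᶠ x in residual X, ∀ᶠ h in residual H, ∃ n, x + π h ∈ GG π θ F n := by
    have h2 : ∀ᶠ x in residual X, ∀ b : F → ℕ, ∀ᶠ h in residual H,
        ((x, h) ∈ PP π θ F b ↔ (x, h) ∈ u b) := by
      rw [eventually_countable_forall]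
      exact hu'
    refine h2.mono fun x hx => ?_
    have h3 : ∀ᶠ h in residual H, ∀ b : F → ℕ, ((x, h) ∈ PP π θ F b ↔ (x, h) ∈ u b) := by
      rw [eventually_countable_forall]
      exact hx
    refine h3.mono fun h hh => ?_
    obtain ⟨g, hg⟩ := hinv x h
    have h4 : (x, h) ∈ PP π θ F (fun i => g⁻¹ i) := ⟨g, fun _ => rfl, hg⟩
    have h5 := (hh _).1 h4
    have h6 : {k : H | (x, h + k) ∈ u (fun i : F => g⁻¹ i)} ∈ 𝓝 (0 : H) := by
      have hc : Continuous fun k : H => (x, h + k) := by fun_prop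
      apply ((hu (fun i : F => g⁻¹ i)).preimage hc).mem_nhds
      show (x, h + 0) ∈ u (fun i : F => g⁻¹ i)
      rw [add_zero]
      exact h5
    obtain ⟨ε, hε, hball⟩ := Metric.mem_nhds_iff.1 h6
    obtain ⟨n, hn⟩ := exists_nat_one_div_lt hε
    refine ⟨n, ?_⟩
    have h7 : ∀ᶠ k in residual H, ((x, h + k) ∈ PP π θ F (fun i : F => g⁻¹ i) ↔
        (x, h + k) ∈ u (fun i : F => g⁻¹ i)) := (residual_translate h).2 (hx _)
    show ∀ᶠ k in residual H, _ → _
    refine h7.mono fun k hk hkb => ?_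
    have h8 := hk.2 (hball (Metric.ball_subset_ball hn.le hkb))
    obtain ⟨g', hg1, hg2⟩ := h8
    refine ⟨g' * g⁻¹, fun i hi => ?_, ?_⟩
    · have := hg1 ⟨i, hi⟩
      simp only at this
      rw [Equiv.Perm.mul_apply, ← this]
      simp
    · rw [mul_smul, hg, inv_smul_smul, add_assoc, ← map_add]
      exact hg2
  have h9 : BP {x | ∃ n, x ∈ GG π θ F n} := by
    have : {x | ∃ n, x ∈ GG π θ F n} = ⋃ n, GG π θ F n := by
      ext x
      simp
    rw [this]
    exact BP.iUnion fun n => bp_GG π hθ hact F n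
  have h10 : BP {q : X × H | q.1 + π q.2 ∈ {x | ∃ n, x ∈ GG π θ F n}} :=
    (h9.fst (W := H)).comp_homeo (shearH π)
  have h11 := h10.ku_converse h1
  have h12 : ∀ᶠ q in residual (X × H), q.1 ∈ {x | ∃ n, x ∈ GG π θ F n} :=
    (residual_comp_homeo (shearH π) (P := fun q => q.1 ∈ {x | ∃ n, x ∈ GG π θ F n})).1 h11
  have h13 := ku (P := fun q : X × H => q.1 ∈ {x | ∃ n, x ∈ GG π θ F n}) h12
  refine h13.mono fun x hx => ?_
  obtain ⟨_, -, h⟩ := exists_of_residual isOpen_univ ⟨(0 : H), mem_univ _⟩ hx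
  exact h

/-- The good comeager set. -/
structure Good (π : H →L[ℝ] X) (θ : X → Y) (C : Set X) : Prop where
  res : C ∈ residual X
  inv : ∀ x ∈ C, ∀ᶠ h in residual H, x + π h ∈ C
  gg : ∀ x ∈ C, ∀ F n, x ∈ core (GG π θ F n) → x ∈ GG π θ F n
  ex : ∀ x ∈ C, ∀ F, ∃ n, x ∈ core (GG π θ F n)

theorem exists_good (π : H →L[ℝ] X) {θ : X → Y} (hθ : Measurable θ)
    (hact : Measurable fun p : Equiv.Perm ℕ × Y => p.1 • p.2)
    (hinv : ∀ x h, ∃ g : Equiv.Perm ℕ, θ (x + π h) = g • θ x) {R : Set X} (hR : R ∈ residual X) :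
    ∃ C, C ⊆ R ∧ Good π θ C := by
  have h1 : ∀ᶠ x in residual X, ∀ F : Finset ℕ, ∀ n, (x ∈ GG π θ F n ↔ x ∈ core (GG π θ F n)) := by
    rw [eventually_countable_forall]
    intro F
    rw [eventually_countable_forall]
    intro n
    exact (bp_GG π hθ hact F n).core_eq
  have h2 : ∀ᶠ x in residual X, ∀ F : Finset ℕ, ∃ n, x ∈ GG π θ F n := by
    rw [eventually_countable_forall]
    exact gg_generic π hθ hact hinv
  let C0 : Set X := {x | (∀ F : Finset ℕ, ∀ n, (x ∈ GG π θ F n ↔ x ∈ core (GG π θ F n))) ∧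
    (∀ F : Finset ℕ, ∃ n, x ∈ GG π θ F n) ∧ x ∈ R}
  have h3 : ∀ᶠ x in residual X, x ∈ C0 := h1.and (h2.and hR)
  have h4 : ∀ᶠ x in residual X, ∀ᶠ h in residual H, x + π h ∈ C0 := by
    have h5 : ∀ᶠ q in residual (X × H), q.1 ∈ C0 := residual_fst h3
    have h6 := (residual_comp_homeo (shearH π) (P := fun q => q.1 ∈ C0)).2 h5
    exact ku (P := fun q : X × H => q.1 + π q.2 ∈ C0) h6
  refine ⟨{x | x ∈ C0 ∧ ∀ᶠ h in residual H, x + π h ∈ C0}, fun x hx => hx.1.2.2, ?_⟩
  refine ⟨h3.and h4, ?_, ?_, ?_⟩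
  · rintro x ⟨-, hx⟩
    refine hx.mono fun h hh => ⟨hh, ?_⟩
    have h7 := (residual_translate h).2 hx
    refine h7.mono fun k hk => ?_
    rw [map_add, ← add_assoc] at hk
    exact hk
  · rintro x ⟨hx, -⟩ F n h
    exact (hx.1 F n).2 h
  · rintro x ⟨hx, -⟩ F
    obtain ⟨n, hn⟩ := hx.2.1 F
    exact ⟨n, (hx.1 F n).1 hn⟩

/-- Lemma 2: moving inside a convex open set while fixing `F`. -/
theorem exists_move {π : H →L[ℝ] X} (hπ : DenseRange π) {θ : X → Y} {C : Set X}
    (hC : Good π θ C) {F : Finset ℕ} {n : ℕ} {O O' : Set X} (hO : IsOpen O) (hOc : Convex ℝ O)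
    (hOU : O ⊆ core (GG π θ F n)) (hO' : IsOpen O') (hO'n : O'.Nonempty) (hOO : O' ⊆ O)
    {x : X} (hxC : x ∈ C) (hxO : x ∈ O) :
    ∃ x' ∈ O', x' ∈ C ∧ Rel θ F x x' := by
  obtain ⟨v, hv⟩ : ∃ v : H, x + π v ∈ O' := by
    have hc : Continuous fun y : X => x + y := by fun_prop
    obtain ⟨y, hy⟩ := hO'n
    have ho : IsOpen ((fun y : X => x + y) ⁻¹' O') := hO'.preimage hc
    obtain ⟨v, hv⟩ := hπ.exists_mem_open ho ⟨y - x, by simpa using hy⟩
    exact ⟨v, hv⟩
  let ε : ℝ := 1 / ((n : ℝ) + 1)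
  have hε : 0 < ε := by positivity
  obtain ⟨m, hm⟩ := exists_nat_gt (‖v‖ / ε)
  have hm0 : (0 : ℝ) < m := lt_of_le_of_lt (by positivity) hm
  have hvm : ‖v‖ / m < ε := by
    rw [div_lt_iff₀ hε] at hm
    rw [div_lt_iff₀ hm0]
    linarith
  have hseg : ∀ i : ℕ, i ≤ m → x + π (((i : ℝ) / m) • v) ∈ O := by
    intro i hi
    have h1 : x + π (((i : ℝ) / m) • v) = (1 - (i : ℝ) / m) • x + ((i : ℝ) / m) • (x + π v) := by
      rw [map_smul]
      module
    rw [h1]
    have h2 : (i : ℝ) / m ≤ 1 := by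
      rw [div_le_one hm0]
      exact_mod_cast hi
    exact hOc hxO (hOO hv) (by linarith) (by positivity) (by ring)
  have claim : ∀ i : ℕ, i ≤ m → ∀ δ > 0, ∃ w : H, ‖w - ((i : ℝ) / m) • v‖ < δ ∧ x + π w ∈ C ∧
      Rel θ F x (x + π w) := by
    intro i
    induction i with
    | zero =>
      intro _ δ hδ
      refine ⟨0, by simpa using hδ, by simpa using hxC, ?_⟩
      simpa using Rel.refl x
    | succ i ih =>
      intro hi δ hδ
      have hOi : {w : H | x + π w ∈ O} ∈ 𝓝 (((i : ℝ) / m) • v) := by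
        have hc : Continuous fun w : H => x + π w := by fun_prop
        exact (hO.preimage hc).mem_nhds (hseg i (by omega))
      obtain ⟨δ1, hδ1, hball⟩ := Metric.mem_nhds_iff.1 hOi
      obtain ⟨w, hw1, hw2, hw3⟩ := ih (by omega) (min δ1 (ε - ‖v‖ / m))
        (lt_min hδ1 (by linarith))
      have hwO : x + π w ∈ O := by
        apply hball
        rw [Metric.mem_ball, dist_eq_norm]
        exact lt_of_lt_of_le hw1 (min_le_left _ _)
      have hwG := hC.gg _ hw2 F n (hOU hwO)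
      have h3 := hC.inv _ hw2
      have h4 : ∀ᶠ k in residual H, k ∈ Metric.ball (0 : H) ε → Rel θ F (x + π w) (x + π w + π k) :=
        hwG
      have hopen : IsOpen {k : H | k ∈ Metric.ball (0 : H) ε ∧
          ‖w + k - (((i + 1 : ℕ) : ℝ) / m) • v‖ < δ} := by
        apply IsOpen.inter Metric.isOpen_ball
        have hc : Continuous fun k : H => ‖w + k - (((i + 1 : ℕ) : ℝ) / m) • v‖ := by fun_prop
        exact isOpen_lt hc continuous_const
      have hne : {k : H | k ∈ Metric.ball (0 : H) ε ∧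
          ‖w + k - (((i + 1 : ℕ) : ℝ) / m) • v‖ < δ}.Nonempty := by
        refine ⟨(((i + 1 : ℕ) : ℝ) / m) • v - w, ?_, by simpa using hδ⟩
        rw [mem_ball_zero_iff]
        have h5 : (((i + 1 : ℕ) : ℝ) / m) • v - w = (1 / (m : ℝ)) • v -
            (w - ((i : ℝ) / m) • v) := by
          push_cast
          module
        rw [h5]
        have h6 : ‖(1 / (m : ℝ)) • v‖ = ‖v‖ / m := by
          rw [norm_smul, Real.norm_of_nonneg (by positivity)]
          ring
        calc ‖(1 / (m : ℝ)) • v - (w - ((i : ℝ) / m) • v)‖ ≤ ‖(1 / (m : ℝ)) • v‖ +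
              ‖w - ((i : ℝ) / m) • v‖ := norm_sub_le _ _
          _ < ‖v‖ / m + (ε - ‖v‖ / m) := by
              rw [h6]
              have := lt_of_lt_of_le hw1 (min_le_right _ _)
              linarith
          _ = ε := by ring
      obtain ⟨k, ⟨hk1, hk2⟩, hk3, hk4⟩ := exists_of_residual hopen hne (h3.and h4)
      refine ⟨w + k, hk2, ?_, ?_⟩
      · rw [map_add, ← add_assoc]
        exact hk3
      · rw [map_add, ← add_assoc]
        exact hw3.trans (hk4 hk1)
  have hO'v : {w : H | x + π w ∈ O'} ∈ 𝓝 v := by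
    have hc : Continuous fun w : H => x + π w := by fun_prop
    exact (hO'.preimage hc).mem_nhds hv
  obtain ⟨δ, hδ, hball⟩ := Metric.mem_nhds_iff.1 hO'v
  obtain ⟨w, hw1, hw2, hw3⟩ := claim m le_rfl δ hδ
  refine ⟨x + π w, ?_, hw2, hw3⟩
  apply hball
  rw [Metric.mem_ball, dist_eq_norm]
  rw [div_self hm0.ne', one_smul] at hw1
  exact hw1

end Turb

end Pool.Agent.Lib.P9aeaaa
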